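import Mathlib

open Set Filter Topology MeasureTheory
open scoped ENNReal NNReal

namespace Pool.Agent.Lib.MP98e33a

/-- `T` is the Lüroth map of `[0, 1]` (the value at `1` is arbitrary in `[0, 1]`, the values outside
`[0, 1]` are irrelevant). -/
structure IsLuroth (T : ℝ → ℝ) : Prop where
  zero : T 0 = 0
  one : T 1 ∈ Icc (0 : ℝ) 1
  branch : ∀ n : ℕ, 1 ≤ n → ∀ x ∈ Ico (1 / ((n : ℝ) + 1)) (1 / (n : ℝ)),
    T x = n * (n + 1) * x - n

/-- inverse branch number `b ≥ 2` -/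
noncomputable def psi (b : ℕ) (θ : ℝ) : ℝ := 1 / (b : ℝ) + θ / ((b : ℝ) * ((b : ℝ) - 1))

/-- first Lüroth digit -/
noncomputable def dig (x : ℝ) : ℕ := ⌈1 / x⌉₊

lemma two_le_dig {x : ℝ} (hx : x ∈ Ioo (0 : ℝ) 1) : 2 ≤ dig x := by
  unfold dig
  rw [Nat.succ_le_iff, Nat.lt_ceil]
  push_cast
  exact (one_lt_div hx.1).2 hx.2

lemma dig_le {x : ℝ} (hx : x ∈ Ioo (0 : ℝ) 1) : 1 / (dig x : ℝ) ≤ x := by
  have h2 := two_le_dig hx
  have h3 : (0 : ℝ) < dig x := by exact_mod_cast (by omega : 0 < dig x)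
  rw [div_le_iff₀ h3]
  have h4 : 1 / x ≤ dig x := Nat.le_ceil _
  rw [div_le_iff₀ hx.1] at h4
  linarith

lemma lt_dig {x : ℝ} (hx : x ∈ Ioo (0 : ℝ) 1) : x < 1 / ((dig x : ℝ) - 1) := by
  have h2 := two_le_dig hx
  have h3 : (0 : ℝ) < (dig x : ℝ) - 1 := by
    have : (2 : ℝ) ≤ dig x := by exact_mod_cast h2
    linarith
  rw [lt_div_iff₀ h3]
  have h4 : (dig x : ℝ) < 1 / x + 1 := Nat.ceil_lt_add_one (by have := hx.1; positivity)
  have h5 : (dig x : ℝ) - 1 < 1 / x := by linarith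
  rw [lt_div_iff₀ hx.1] at h5
  linarith

lemma dig_eq {x : ℝ} {b : ℕ} (hb : 2 ≤ b) (h1 : 1 / (b : ℝ) ≤ x) (h2 : x < 1 / ((b : ℝ) - 1)) :
    dig x = b := by
  have hb' : (2 : ℝ) ≤ b := by exact_mod_cast hb
  have hx : 0 < x := lt_of_lt_of_le (by positivity) h1
  unfold dig
  rw [Nat.ceil_eq_iff (by omega)]
  constructor
  · rw [lt_div_iff₀ hx]
    rw [lt_div_iff₀ (by linarith)] at h2
    rw [Nat.cast_sub (by omega)]
    push_cast
    linarith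
  · rw [div_le_iff₀ hx]
    rw [div_le_iff₀ (by linarith)] at h1
    linarith

lemma psi_mem {b : ℕ} (hb : 2 ≤ b) {θ : ℝ} (hθ : θ ∈ Ico (0 : ℝ) 1) :
    1 / (b : ℝ) ≤ psi b θ ∧ psi b θ < 1 / ((b : ℝ) - 1) := by
  have hb' : (2 : ℝ) ≤ b := by exact_mod_cast hb
  have h1 : (0 : ℝ) < (b : ℝ) - 1 := by linarith
  have h0 : (0 : ℝ) < (b : ℝ) := by linarith
  unfold psi
  constructor
  · have : 0 ≤ θ / ((b : ℝ) * ((b : ℝ) - 1)) := div_nonneg hθ.1 (by positivity)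
    linarith
  · have h2 : θ / ((b : ℝ) * ((b : ℝ) - 1)) < 1 / ((b : ℝ) * ((b : ℝ) - 1)) := by
      apply div_lt_div_of_pos_right hθ.2 (by positivity)
    have h3 : 1 / (b : ℝ) + 1 / ((b : ℝ) * ((b : ℝ) - 1)) = 1 / ((b : ℝ) - 1) := by
      field_simp
      ring
    linarith

lemma psi_mem_Ioo {b : ℕ} (hb : 2 ≤ b) {θ : ℝ} (hθ : θ ∈ Ico (0 : ℝ) 1) :
    psi b θ ∈ Ioo (0 : ℝ) 1 := by
  have hb' : (2 : ℝ) ≤ b := by exact_mod_cast hb
  obtain ⟨h1, h2⟩ := psi_mem hb hθ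
  refine ⟨lt_of_lt_of_le (by positivity) h1, h2.trans_le ?_⟩
  rw [div_le_one (by linarith)]
  linarith

lemma dig_psi {b : ℕ} (hb : 2 ≤ b) {θ : ℝ} (hθ : θ ∈ Ico (0 : ℝ) 1) : dig (psi b θ) = b :=
  dig_eq hb (psi_mem hb hθ).1 (psi_mem hb hθ).2

variable {T : ℝ → ℝ}

lemma IsLuroth.eq_dig (hT : IsLuroth T) {x : ℝ} (hx : x ∈ Ioo (0 : ℝ) 1) :
    T x = (dig x : ℝ) * ((dig x : ℝ) - 1) * x - ((dig x : ℝ) - 1) := by
  have h2 := two_le_dig hx
  have h3 : (((dig x - 1 : ℕ)) : ℝ) = (dig x : ℝ) - 1 := by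
    rw [Nat.cast_sub (by omega)]
    push_cast
    rfl
  have := hT.branch (dig x - 1) (by omega) x (by
    rw [h3]
    refine ⟨?_, lt_dig hx⟩
    rw [sub_add_cancel]
    exact dig_le hx)
  rw [this, h3]
  ring

lemma IsLuroth.eq_psi (hT : IsLuroth T) {x : ℝ} (hx : x ∈ Ioo (0 : ℝ) 1) :
    x = psi (dig x) (T x) := by
  have h2 : (2 : ℝ) ≤ dig x := by exact_mod_cast two_le_dig hx
  rw [hT.eq_dig hx]
  unfold psi
  have h3 : (dig x : ℝ) - 1 ≠ 0 := by linarith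
  have h4 : (dig x : ℝ) ≠ 0 := by linarith
  field_simp
  ring

lemma IsLuroth.mem_Ico (hT : IsLuroth T) {x : ℝ} (hx : x ∈ Ioo (0 : ℝ) 1) :
    T x ∈ Ico (0 : ℝ) 1 := by
  have h2 : (2 : ℝ) ≤ dig x := by exact_mod_cast two_le_dig hx
  have h3 : 0 < (dig x : ℝ) - 1 := by linarith
  have h4 : 0 < (dig x : ℝ) := by linarith
  have h5 := dig_le hx
  have h6 := lt_dig hx
  rw [div_le_iff₀ h4] at h5
  rw [lt_div_iff₀ h3] at h6
  rw [hT.eq_dig hx]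
  constructor
  · nlinarith
  · nlinarith

lemma IsLuroth.mem_Icc (hT : IsLuroth T) {x : ℝ} (hx : x ∈ Icc (0 : ℝ) 1) :
    T x ∈ Icc (0 : ℝ) 1 := by
  rcases eq_or_lt_of_le hx.1 with h | h
  · rw [← h, hT.zero]
    exact ⟨le_rfl, zero_le_one⟩
  rcases eq_or_lt_of_le hx.2 with h' | h'
  · rw [h']
    exact hT.one
  · exact Ico_subset_Icc_self (hT.mem_Ico ⟨h, h'⟩)

lemma IsLuroth.iterate_mem (hT : IsLuroth T) {x : ℝ} (hx : x ∈ Icc (0 : ℝ) 1) (n : ℕ) :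
    T^[n] x ∈ Icc (0 : ℝ) 1 := by
  induction n with
  | zero => exact hx
  | succ n ih =>
    rw [Function.iterate_succ_apply']
    exact hT.mem_Icc ih

lemma IsLuroth.apply_psi (hT : IsLuroth T) {b : ℕ} (hb : 2 ≤ b) {θ : ℝ} (hθ : θ ∈ Ico (0 : ℝ) 1) :
    T (psi b θ) = θ := by
  have hb' : (2 : ℝ) ≤ b := by exact_mod_cast hb
  rw [hT.eq_dig (psi_mem_Ioo hb hθ), dig_psi hb hθ]
  unfold psi
  have h3 : (b : ℝ) - 1 ≠ 0 := by linarith
  have h4 : (b : ℝ) ≠ 0 := by linarith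
  field_simp
  ring

lemma psi_sub (b : ℕ) (θ θ' : ℝ) :
    psi b θ - psi b θ' = (θ - θ') / ((b : ℝ) * ((b : ℝ) - 1)) := by
  unfold psi
  ring

/-- Preimages of a set under the Lüroth map are covered by the images under inverse branches. -/
lemma IsLuroth.preimage_subset (hT : IsLuroth T) (A : Set ℝ) :
    {y | y ∈ Ioo (0 : ℝ) 1 ∧ T y ∈ A} ⊆ ⋃ b : ℕ, psi (b + 2) '' A := by
  rintro y ⟨hy, hyA⟩
  have h2 := two_le_dig hy
  refine mem_iUnion.2 ⟨dig y - 2, T y, hyA, ?_⟩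
  rw [show dig y - 2 + 2 = dig y by omega]
  exact (hT.eq_psi hy).symm

lemma lipschitz_psi {b : ℕ} (hb : 2 ≤ b) : LipschitzWith 1 (psi b) := by
  refine LipschitzWith.of_dist_le_mul fun x y => ?_
  have hb' : (2 : ℝ) ≤ b := by exact_mod_cast hb
  rw [Real.dist_eq, Real.dist_eq, psi_sub, abs_div, NNReal.coe_one, one_mul]
  apply div_le_self (abs_nonneg _)
  rw [abs_of_nonneg (by nlinarith)]
  nlinarith

lemma IsLuroth.dimH_preimage (hT : IsLuroth T) (A : Set ℝ) (n : ℕ) :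
    dimH {y | y ∈ Icc (0 : ℝ) 1 ∧ T^[n] y ∈ A} ≤ dimH A := by
  induction n with
  | zero => exact dimH_mono fun y hy => hy.2
  | succ n ih =>
    have h1 : {y | y ∈ Icc (0 : ℝ) 1 ∧ T^[n + 1] y ∈ A} ⊆
        ({0, 1} : Set ℝ) ∪ ⋃ b : ℕ, psi (b + 2) '' {y | y ∈ Icc (0 : ℝ) 1 ∧ T^[n] y ∈ A} := by
      rintro y ⟨hy, hyA⟩
      rcases eq_or_lt_of_le hy.1 with h | h
      · left
        rw [← h]
        simp
      rcases eq_or_lt_of_le hy.2 with h' | h'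
      · left
        rw [h']
        simp
      right
      apply hT.preimage_subset
      refine ⟨⟨h, h'⟩, hT.mem_Icc hy, ?_⟩
      rw [Function.iterate_succ_apply] at hyA
      exact hyA
    refine (dimH_mono h1).trans ?_
    rw [dimH_union]
    apply max_le
    · rw [dimH_countable (Set.Finite.countable (by simp))]
      exact zero_le
    · rw [dimH_iUnion]
      apply iSup_le
      intro b
      exact ((lipschitz_psi (by omega)).dimH_image_le _).trans ih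

end Pool.Agent.Lib.MP98e33a
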