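import Mathlib
import Pool.Agent.Lib.MP98e33a.Basic

open Set Filter Topology MeasureTheory
open scoped ENNReal NNReal

namespace Pool.Agent.Lib.MP98e33a

/-! ### points with prescribed digits -/

/-- reciprocal of the length of the cylinder of the first `m` digits -/
noncomputable def cyl (d : ℕ → ℕ) (m : ℕ) : ℝ :=
  ∏ i ∈ Finset.range m, ((d i : ℝ) * ((d i : ℝ) - 1))

/-- shifted sequence -/
def sh (n : ℕ) (d : ℕ → ℕ) : ℕ → ℕ := fun k => d (n + k)

/-- the point with digit sequence `d` -/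
noncomputable def phi (d : ℕ → ℕ) : ℝ := ∑' k, (1 / (d k : ℝ)) / cyl d k

lemma two_le_mul {b : ℕ} (hb : 2 ≤ b) : (2 : ℝ) ≤ (b : ℝ) * ((b : ℝ) - 1) := by
  have hb' : (2 : ℝ) ≤ b := by exact_mod_cast hb
  nlinarith

lemma cyl_zero (d : ℕ → ℕ) : cyl d 0 = 1 := by simp [cyl]

lemma cyl_succ (d : ℕ → ℕ) (m : ℕ) : cyl d (m + 1) = cyl d m * ((d m : ℝ) * ((d m : ℝ) - 1)) := by
  unfold cyl
  rw [Finset.prod_range_succ]

lemma cyl_ge {d : ℕ → ℕ} (hd : ∀ k, 2 ≤ d k) (m : ℕ) : (2 : ℝ) ^ m ≤ cyl d m := by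
  induction m with
  | zero => simp [cyl_zero]
  | succ m ih =>
    rw [cyl_succ, pow_succ]
    exact mul_le_mul ih (two_le_mul (hd m)) (by norm_num) (le_trans (by positivity) ih)

lemma cyl_pos {d : ℕ → ℕ} (hd : ∀ k, 2 ≤ d k) (m : ℕ) : 0 < cyl d m :=
  lt_of_lt_of_le (by positivity) (cyl_ge hd m)

lemma cyl_mono {d : ℕ → ℕ} (hd : ∀ k, 2 ≤ d k) (m : ℕ) : cyl d m ≤ cyl d (m + 1) := by
  rw [cyl_succ]
  have := two_le_mul (hd m)
  have := cyl_pos hd m
  nlinarith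

lemma cyl_succ' (d : ℕ → ℕ) (m : ℕ) :
    cyl d (m + 1) = ((d 0 : ℝ) * ((d 0 : ℝ) - 1)) * cyl (sh 1 d) m := by
  unfold cyl sh
  rw [Finset.prod_range_succ', mul_comm]
  congr 1
  apply Finset.prod_congr rfl
  intro i _
  rw [add_comm 1 i]

lemma term_nonneg {d : ℕ → ℕ} (hd : ∀ k, 2 ≤ d k) (k : ℕ) : 0 ≤ (1 / (d k : ℝ)) / cyl d k := by
  have := cyl_pos hd k
  positivity

lemma term_le {d : ℕ → ℕ} (hd : ∀ k, 2 ≤ d k) (k : ℕ) :
    (1 / (d k : ℝ)) / cyl d k ≤ (1 / 2) / 2 ^ k := by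
  have h1 : (2 : ℝ) ≤ d k := by exact_mod_cast hd k
  apply div_le_div₀ (by norm_num) _ (by positivity) (cyl_ge hd k)
  exact one_div_le_one_div_of_le (by norm_num) h1

lemma summable_phi {d : ℕ → ℕ} (hd : ∀ k, 2 ≤ d k) :
    Summable (fun k => (1 / (d k : ℝ)) / cyl d k) :=
  Summable.of_nonneg_of_le (term_nonneg hd) (term_le hd) (summable_geometric_two' 1)

lemma phi_nonneg {d : ℕ → ℕ} (hd : ∀ k, 2 ≤ d k) : 0 ≤ phi d := tsum_nonneg (term_nonneg hd)

lemma phi_le_one {d : ℕ → ℕ} (hd : ∀ k, 2 ≤ d k) : phi d ≤ 1 := by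
  have h := (summable_phi hd).tsum_le_tsum (term_le hd) (summable_geometric_two' 1)
  rwa [tsum_geometric_two'] at h

lemma sh_zero (d : ℕ → ℕ) : sh 0 d = d := by
  funext k
  simp [sh]

lemma sh_sh (n m : ℕ) (d : ℕ → ℕ) : sh n (sh m d) = sh (m + n) d := by
  funext k
  simp [sh, add_assoc]

lemma sh_ge {d : ℕ → ℕ} (hd : ∀ k, 2 ≤ d k) (n : ℕ) : ∀ k, 2 ≤ sh n d k := fun k => hd (n + k)

lemma phi_eq {d : ℕ → ℕ} (hd : ∀ k, 2 ≤ d k) : phi d = psi (d 0) (phi (sh 1 d)) := by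
  unfold phi
  rw [(summable_phi hd).tsum_eq_zero_add]
  unfold psi
  rw [cyl_zero, div_one]
  congr 1
  rw [← tsum_div_const]
  apply tsum_congr
  intro k
  have h1 : sh 1 d k = d (k + 1) := by rw [sh, add_comm]
  rw [cyl_succ', h1]
  have h2 := two_le_mul (hd 0)
  have h3 := cyl_pos (sh_ge hd 1) k
  rw [div_div, mul_comm, div_div, div_div, mul_comm (d (k + 1) : ℝ)]
  ring_nf

lemma phi_sh {d : ℕ → ℕ} (hd : ∀ k, 2 ≤ d k) (n : ℕ) :
    phi (sh n d) = psi (d n) (phi (sh (n + 1) d)) := by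
  rw [phi_eq (sh_ge hd n), sh_sh]
  rfl

lemma phi_pos {d : ℕ → ℕ} (hd : ∀ k, 2 ≤ d k) : 0 < phi d := by
  rw [phi_eq hd]
  unfold psi
  have h1 := phi_nonneg (sh_ge hd 1)
  have h2 := two_le_mul (hd 0)
  have h3 : (0 : ℝ) < d 0 := by exact_mod_cast (by have := hd 0; omega : 0 < d 0)
  positivity

lemma phi_le {d : ℕ → ℕ} (hd : ∀ k, 2 ≤ d k) : phi d ≤ 1 / ((d 0 : ℝ) - 1) := by
  rw [phi_eq hd]
  unfold psi
  have h1 := phi_le_one (sh_ge hd 1)
  have h2 := two_le_mul (hd 0)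
  have h3 : (2 : ℝ) ≤ d 0 := by exact_mod_cast hd 0
  have h4 : phi (sh 1 d) / ((d 0 : ℝ) * ((d 0 : ℝ) - 1)) ≤ 1 / ((d 0 : ℝ) * ((d 0 : ℝ) - 1)) :=
    div_le_div_of_nonneg_right h1 (by linarith)
  have h5 : 1 / (d 0 : ℝ) + 1 / ((d 0 : ℝ) * ((d 0 : ℝ) - 1)) = 1 / ((d 0 : ℝ) - 1) := by
    have h6 : (d 0 : ℝ) - 1 ≠ 0 := by linarith
    have h7 : (d 0 : ℝ) ≠ 0 := by linarith
    field_simp
    ring
  linarith

lemma phi_ge {d : ℕ → ℕ} (hd : ∀ k, 2 ≤ d k) : 1 / (d 0 : ℝ) ≤ phi d := by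
  rw [phi_eq hd]
  unfold psi
  have h1 := phi_nonneg (sh_ge hd 1)
  have h2 := two_le_mul (hd 0)
  have : 0 ≤ phi (sh 1 d) / ((d 0 : ℝ) * ((d 0 : ℝ) - 1)) := by positivity
  linarith

lemma phi_lt_one {d : ℕ → ℕ} (hd : ∀ k, 2 ≤ d k) {k : ℕ} (hk : 3 ≤ d k) : phi d < 1 := by
  induction k generalizing d with
  | zero =>
    refine (phi_le hd).trans_lt ?_
    have h3 : (3 : ℝ) ≤ d 0 := by exact_mod_cast hk
    rw [div_lt_one (by linarith)]
    linarith
  | succ k ih =>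
    have h1 := ih (sh_ge hd 1) (by rw [sh, add_comm]; exact hk)
    rw [phi_eq hd]
    exact (psi_mem_Ioo (hd 0) ⟨phi_nonneg (sh_ge hd 1), h1⟩).2

lemma phi_sh_mem {d : ℕ → ℕ} (hd : ∀ k, 2 ≤ d k) (hd3 : ∀ n, ∃ k, n ≤ k ∧ 3 ≤ d k) (n : ℕ) :
    phi (sh n d) ∈ Ioo (0 : ℝ) 1 := by
  obtain ⟨k, hk, hk3⟩ := hd3 n
  refine ⟨phi_pos (sh_ge hd n), phi_lt_one (k := k - n) (sh_ge hd n) ?_⟩
  rw [sh, show n + (k - n) = k by omega]
  exact hk3

variable {T : ℝ → ℝ}

lemma iterate_phi (hT : IsLuroth T) {d : ℕ → ℕ} (hd : ∀ k, 2 ≤ d k)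
    (hd3 : ∀ n, ∃ k, n ≤ k ∧ 3 ≤ d k) (n : ℕ) : T^[n] (phi d) = phi (sh n d) := by
  induction n with
  | zero => rw [sh_zero]; rfl
  | succ n ih =>
    rw [Function.iterate_succ_apply', ih, phi_sh hd n]
    exact hT.apply_psi (hd n) (Ioo_subset_Ico_self (phi_sh_mem hd hd3 (n + 1)))

lemma phi_sub {d d' : ℕ → ℕ} (hd : ∀ k, 2 ≤ d k) (hd' : ∀ k, 2 ≤ d' k) (m : ℕ)
    (h : ∀ i, i < m → d i = d' i) :
    phi d - phi d' = (phi (sh m d) - phi (sh m d')) / cyl d m := by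
  induction m with
  | zero => simp [sh_zero, cyl_zero]
  | succ m ih =>
    rw [ih (fun i hi => h i (by omega)), phi_sh hd m, phi_sh hd' m, ← h m (by omega), psi_sub,
      cyl_succ, div_div, mul_comm]

/-- Separation of two points whose first digits differ, and whose tails are not too far apart. -/
lemma psi_sep {b b' : ℕ} (hb : 2 ≤ b) (hlt : b < b') {θ θ' : ℝ} (hθ : 0 ≤ θ)
    (h : θ' - θ ≤ 1 / 2) {N : ℝ} (hN : (b' : ℝ) ≤ 2 * N) :
    ((b' : ℝ) - b) / (8 * N ^ 2) ≤ psi b θ - psi b' θ' := by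
  have hb2 : (2 : ℝ) ≤ b := by exact_mod_cast hb
  have hb3 : (b : ℝ) + 1 ≤ b' := by exact_mod_cast hlt
  set x : ℝ := (b : ℝ)
  set y : ℝ := (b' : ℝ)
  have hxy : x * (x - 1) ≤ y * (y - 1) := by nlinarith
  have hx0 : 0 < x * (x - 1) := by nlinarith
  have hy0 : 0 < y * (y - 1) := by nlinarith
  have hN0 : 0 < N := by linarith
  have e1 : θ / (y * (y - 1)) ≤ θ / (x * (x - 1)) := div_le_div_of_nonneg_left hθ hx0 hxy
  have e2 : θ' / (y * (y - 1)) ≤ (θ + 1 / 2) / (y * (y - 1)) :=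
    div_le_div_of_nonneg_right (by linarith) hy0.le
  have e3 : (θ + 1 / 2) / (y * (y - 1)) = θ / (y * (y - 1)) + (1 / 2) / (y * (y - 1)) := by ring
  have e4 : (y - x) / (y * (y - 1)) ≤ 1 / x - 1 / y := by
    rw [div_sub_div _ _ (by linarith) (by linarith)]
    rw [one_mul, mul_one]
    apply div_le_div_of_nonneg_left (by linarith) (by nlinarith)
    nlinarith
  have e5 : (1 / 2) / (y * (y - 1)) ≤ ((y - x) / 2) / (y * (y - 1)) :=
    div_le_div_of_nonneg_right (by linarith) hy0.le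
  have e6 : (y - x) / (8 * N ^ 2) ≤ ((y - x) / 2) / (y * (y - 1)) := by
    rw [div_div]
    apply div_le_div_of_nonneg_left (by linarith) (by positivity)
    have : y * (y - 1) ≤ (2 * N) * (2 * N) := by nlinarith
    nlinarith
  have e7 : (y - x) / (y * (y - 1)) = ((y - x) / 2) / (y * (y - 1)) + ((y - x) / 2) / (y * (y - 1)) := by
    ring
  unfold psi
  linarith

/-! ### the construction -/

section Construction

variable (c k N : ℕ → ℕ)

/-- the partial products -/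
def prd (j : ℕ) : ℕ := ∏ i ∈ Finset.range j, N i

/-- mixed radix digits of `t` -/
noncomputable def rad (t : ℝ) (j : ℕ) : ℕ := ⌊(prd N (j + 1) : ℝ) * t⌋₊ % N j

open Classical in
/-- the digit sequence of `y(t)` -/
noncomputable def dsq (t : ℝ) (n : ℕ) : ℕ :=
  if h : ∃ j, k j = n then N h.choose + rad N t h.choose else c n

variable {c k N}

lemma prd_succ (j : ℕ) : prd N (j + 1) = N j * prd N j := by
  unfold prd
  rw [Finset.prod_range_succ, mul_comm]

lemma floor_prd (t : ℝ) (hN : ∀ j, 0 < N j) (j : ℕ) :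
    ⌊(prd N (j + 1) : ℝ) * t⌋₊ = N j * ⌊(prd N j : ℝ) * t⌋₊ + rad N t j := by
  have h1 : ⌊(prd N j : ℝ) * t⌋₊ = ⌊(prd N (j + 1) : ℝ) * t⌋₊ / N j := by
    rw [← Nat.floor_div_natCast]
    congr 1
    rw [prd_succ]
    have : (N j : ℝ) ≠ 0 := by exact_mod_cast (hN j).ne'
    push_cast
    field_simp
  rw [h1]
  unfold rad
  exact (Nat.div_add_mod _ _).symm

lemma dsq_free (hk : StrictMono k) (t : ℝ) (j : ℕ) : dsq c k N t (k j) = N j + rad N t j := by
  have h : ∃ i, k i = k j := ⟨j, rfl⟩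
  unfold dsq
  rw [dif_pos h]
  have := hk.injective h.choose_spec
  rw [this]

lemma dsq_fixed {t : ℝ} {n : ℕ} (h : ∀ j, k j ≠ n) : dsq c k N t n = c n := by
  unfold dsq
  rw [dif_neg]
  rintro ⟨j, hj⟩
  exact h j hj

lemma dsq_ge (hk : StrictMono k) (hc : ∀ n, 2 ≤ c n) (hN : ∀ j, 2 ≤ N j) (t : ℝ) (n : ℕ) :
    2 ≤ dsq c k N t n := by
  by_cases h : ∃ j, k j = n
  · obtain ⟨j, rfl⟩ := h
    rw [dsq_free hk]
    have := hN j
    omega
  · push Not at h
    rw [dsq_fixed h]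
    exact hc n

lemma dsq_agree (hk : StrictMono k) {t t' : ℝ} {j : ℕ}
    (h : ∀ i, i < j → rad N t i = rad N t' i) {n : ℕ} (hn : n < k j) :
    dsq c k N t n = dsq c k N t' n := by
  by_cases h' : ∃ i, k i = n
  · obtain ⟨i, rfl⟩ := h'
    rw [dsq_free hk, dsq_free hk, h i (hk.lt_iff_lt.1 hn)]
  · push Not at h'
    rw [dsq_fixed h', dsq_fixed h']

lemma floor_eq_of_agree (hN : ∀ j, 0 < N j) {t t' : ℝ} (ht : t ∈ Ico (0 : ℝ) 1)
    (ht' : t' ∈ Ico (0 : ℝ) 1) {j : ℕ} (h : ∀ i, i < j → rad N t i = rad N t' i) :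
    ⌊(prd N j : ℝ) * t⌋₊ = ⌊(prd N j : ℝ) * t'⌋₊ := by
  induction j with
  | zero =>
    have e1 : ⌊t⌋₊ = 0 := Nat.floor_eq_zero.2 ht.2
    have e2 : ⌊t'⌋₊ = 0 := Nat.floor_eq_zero.2 ht'.2
    simp [prd, e1, e2]
  | succ j ih =>
    rw [floor_prd t hN, floor_prd t' hN, ih (fun i hi => h i (by omega)), h j (by omega)]

lemma abs_sub_le_rad (hN : ∀ j, 0 < N j) {t t' : ℝ} (ht : t ∈ Ico (0 : ℝ) 1)
    (ht' : t' ∈ Ico (0 : ℝ) 1) {j : ℕ} (h : ∀ i, i < j → rad N t i = rad N t' i)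
    (hne : rad N t j ≠ rad N t' j) :
    |t - t'| ≤ 2 * |(rad N t j : ℝ) - rad N t' j| / prd N (j + 1) := by
  have hP : (0 : ℝ) < prd N (j + 1) := by
    unfold prd
    exact_mod_cast Finset.prod_pos fun i _ => hN i
  rw [le_div_iff₀ hP]
  have e1 := floor_prd t hN j
  have e2 := floor_prd t' hN j
  rw [floor_eq_of_agree hN ht ht' h] at e1
  have f1 := Nat.floor_le (mul_nonneg hP.le ht.1)
  have f2 := Nat.lt_floor_add_one ((prd N (j + 1) : ℝ) * t)
  have f3 := Nat.floor_le (mul_nonneg hP.le ht'.1)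
  have f4 := Nat.lt_floor_add_one ((prd N (j + 1) : ℝ) * t')
  rw [e1] at f1 f2
  rw [e2] at f3 f4
  push_cast at f1 f2 f3 f4
  have h1 : (1 : ℝ) ≤ |(rad N t j : ℝ) - rad N t' j| := by
    have : (rad N t j : ℤ) - rad N t' j ≠ 0 := by
      intro h0
      apply hne
      omega
    have h2 := Int.one_le_abs this
    have h3 : ((1 : ℤ) : ℝ) ≤ ((|(rad N t j : ℤ) - rad N t' j| : ℤ) : ℝ) := by exact_mod_cast h2
    push_cast at h3
    exact h3
  have h2 : |t - t'| * (prd N (j + 1) : ℝ) = |(prd N (j + 1) : ℝ) * t - (prd N (j + 1) : ℝ) * t'| := by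
    rw [← mul_sub, abs_mul, abs_of_pos hP, mul_comm]
  rw [h2]
  have h3 : |(prd N (j + 1) : ℝ) * t - (prd N (j + 1) : ℝ) * t'| ≤
      |(rad N t j : ℝ) - rad N t' j| + 1 := by
    rw [abs_le]
    have g1 := le_abs_self ((rad N t j : ℝ) - rad N t' j)
    have g2 := neg_abs_le ((rad N t j : ℝ) - rad N t' j)
    constructor <;> linarith
  linarith

/-- length of cylinders of `y(t)` -/
lemma cyl_dsq_le (hk : StrictMono k) (hc : ∀ n, 2 ≤ c n) (hN : ∀ j, 2 ≤ N j) (t : ℝ) (m j : ℕ)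
    (hm : m ≤ k j) : cyl (dsq c k N t) m ≤ cyl c m * ∏ i ∈ Finset.range j, (2 * (N i : ℝ)) ^ 2 := by
  have hN1 : ∀ i, (1 : ℝ) ≤ (2 * (N i : ℝ)) ^ 2 := by
    intro i
    have : (2 : ℝ) ≤ N i := by exact_mod_cast hN i
    nlinarith
  induction m generalizing j with
  | zero =>
    rw [cyl_zero, cyl_zero, one_mul]
    exact Finset.one_le_prod fun i _ => hN1 i
  | succ m ih =>
    rw [cyl_succ, cyl_succ]
    have hcp := cyl_pos hc m
    have hc2 := two_le_mul (hc m)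
    have hd2 := two_le_mul (dsq_ge hk hc hN t m)
    have hdp := cyl_pos (dsq_ge hk hc hN t) m
    have hpp : ∀ j, (0 : ℝ) ≤ ∏ i ∈ Finset.range j, (2 * (N i : ℝ)) ^ 2 := fun j =>
      Finset.prod_nonneg fun i _ => by positivity
    by_cases h : ∃ l, k l = m
    · obtain ⟨l, hl⟩ := h
      have hlj : l < j := hk.lt_iff_lt.1 (by omega)
      have ih' := ih l (by omega)
      have h1 : (dsq c k N t m : ℝ) * ((dsq c k N t m : ℝ) - 1) ≤ (2 * (N l : ℝ)) ^ 2 := by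
        have h2 : dsq c k N t m ≤ 2 * N l := by
          rw [← hl, dsq_free hk]
          have : rad N t l < N l := Nat.mod_lt _ (by have := hN l; omega)
          omega
        have h3 : (dsq c k N t m : ℝ) ≤ 2 * (N l : ℝ) := by exact_mod_cast h2
        have h4 : (2 : ℝ) ≤ dsq c k N t m := by exact_mod_cast dsq_ge hk hc hN t m
        nlinarith
      calc cyl (dsq c k N t) m * ((dsq c k N t m : ℝ) * ((dsq c k N t m : ℝ) - 1))
          ≤ (cyl c m * ∏ i ∈ Finset.range l, (2 * (N i : ℝ)) ^ 2) * (2 * (N l : ℝ)) ^ 2 :=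
            mul_le_mul ih' h1 (by linarith) (mul_nonneg hcp.le (hpp l))
        _ = cyl c m * ∏ i ∈ Finset.range (l + 1), (2 * (N i : ℝ)) ^ 2 := by
            rw [Finset.prod_range_succ]
            ring
        _ ≤ (cyl c m * ((c m : ℝ) * ((c m : ℝ) - 1))) *
              ∏ i ∈ Finset.range j, (2 * (N i : ℝ)) ^ 2 := by
            apply mul_le_mul _ _ (hpp _) (by positivity)
            · nlinarith
            · exact Finset.prod_le_prod_of_subset_of_one_le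
                (Finset.range_mono (by omega)) (fun i _ => by positivity) (fun i _ _ => hN1 i)
    · push Not at h
      have ih' := ih j (by omega)
      rw [dsq_fixed h]
      calc cyl (dsq c k N t) m * ((c m : ℝ) * ((c m : ℝ) - 1))
          ≤ (cyl c m * ∏ i ∈ Finset.range j, (2 * (N i : ℝ)) ^ 2) *
            ((c m : ℝ) * ((c m : ℝ) - 1)) := mul_le_mul_of_nonneg_right ih' (by linarith)
        _ = _ := by ring

lemma prod_two_mul_sq (N : ℕ → ℕ) (j : ℕ) :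
    ∏ i ∈ Finset.range j, (2 * (N i : ℝ)) ^ 2 = 4 ^ j * (prd N j : ℝ) ^ 2 := by
  unfold prd
  induction j with
  | zero => simp
  | succ j ih =>
    rw [Finset.prod_range_succ, ih, Finset.prod_range_succ]
    push_cast
    ring

/-- Separation of `y(t)` and `y(t')`. -/
lemma phi_sep (hk : StrictMono k) (hk2 : ∀ j, k j + 2 ≤ k (j + 1)) (hc : ∀ n, 2 ≤ c n)
    (hN : ∀ j, 2 ≤ N j) {t t' : ℝ} {j : ℕ} (h : ∀ i, i < j → rad N t i = rad N t' i)
    (hlt : rad N t j < rad N t' j) :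
    |(rad N t' j : ℝ) - rad N t j| / (8 * (N j : ℝ) ^ 2 * (cyl c (k j) * (4 ^ j * (prd N j : ℝ) ^ 2)))
      ≤ |phi (dsq c k N t) - phi (dsq c k N t')| := by
  set d := dsq c k N t with hd
  set d' := dsq c k N t' with hd'
  have hd2 : ∀ n, 2 ≤ d n := dsq_ge hk hc hN t
  have hd2' : ∀ n, 2 ≤ d' n := dsq_ge hk hc hN t'
  have hcyl : cyl d (k j) ≤ cyl c (k j) * (4 ^ j * (prd N j : ℝ) ^ 2) := by
    rw [← prod_two_mul_sq]
    exact cyl_dsq_le hk hc hN t (k j) j le_rfl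
  have hcp := cyl_pos hd2 (k j)
  have hsub := phi_sub hd2 hd2' (k j) (fun i hi => dsq_agree hk h hi)
  have hN0 : (0 : ℝ) < N j := by
    have : (2 : ℝ) ≤ N j := by exact_mod_cast hN j
    linarith
  -- the digits after `k j` agree
  have hnext : ∀ i, k i ≠ k j + 1 := by
    intro i hi
    have h1 : k j < k i := by omega
    have h2 : j < i := hk.lt_iff_lt.1 h1
    have h3 : k (j + 1) ≤ k i := hk.monotone h2
    have := hk2 j
    omega
  have e1 : d (k j + 1) = c (k j + 1) := dsq_fixed hnext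
  have e2 : d' (k j + 1) = c (k j + 1) := dsq_fixed hnext
  have g1 : 1 / (c (k j + 1) : ℝ) ≤ phi (sh (k j + 1) d) := by
    have := phi_ge (sh_ge hd2 (k j + 1))
    rw [sh, add_zero, e1] at this
    exact this
  have g2 : phi (sh (k j + 1) d') ≤ 1 / ((c (k j + 1) : ℝ) - 1) := by
    have := phi_le (sh_ge hd2' (k j + 1))
    rw [sh, add_zero, e2] at this
    exact this
  have g3 : 1 / ((c (k j + 1) : ℝ) - 1) - 1 / (c (k j + 1) : ℝ) ≤ 1 / 2 := by
    have h2 : (2 : ℝ) ≤ c (k j + 1) := by exact_mod_cast hc (k j + 1)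
    rw [div_sub_div _ _ (by linarith) (by linarith), div_le_div_iff₀ (by nlinarith) (by norm_num)]
    nlinarith
  have f1 : d (k j) = N j + rad N t j := dsq_free hk t j
  have f2 : d' (k j) = N j + rad N t' j := dsq_free hk t' j
  have hrad : rad N t' j < N j := Nat.mod_lt _ (by have := hN j; omega)
  have hsep := psi_sep (hd2 (k j)) (show d (k j) < d' (k j) by omega)
    (phi_nonneg (sh_ge hd2 (k j + 1))) (show phi (sh (k j + 1) d') - phi (sh (k j + 1) d) ≤ 1 / 2 by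
      linarith) (N := N j) (by
        rw [f2]
        push_cast
        have : (rad N t' j : ℝ) ≤ N j := by exact_mod_cast hrad.le
        linarith)
  rw [← phi_sh hd2 (k j), ← phi_sh hd2' (k j), f1, f2] at hsep
  push_cast at hsep
  rw [hsub, abs_div, abs_of_pos hcp]
  have hlt' : (rad N t j : ℝ) < rad N t' j := by exact_mod_cast hlt
  rw [abs_of_pos (show (0 : ℝ) < (rad N t' j : ℝ) - rad N t j by linarith)]
  have h5 : ((rad N t' j : ℝ) - rad N t j) / (8 * (N j : ℝ) ^ 2) ≤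
      |phi (sh (k j) d) - phi (sh (k j) d')| := by
    refine le_trans ?_ (le_abs_self _)
    refine le_trans (le_of_eq ?_) hsep
    congr 1
    ring
  calc ((rad N t' j : ℝ) - rad N t j) /
        (8 * (N j : ℝ) ^ 2 * (cyl c (k j) * (4 ^ j * (prd N j : ℝ) ^ 2)))
      = (((rad N t' j : ℝ) - rad N t j) / (8 * (N j : ℝ) ^ 2)) /
          (cyl c (k j) * (4 ^ j * (prd N j : ℝ) ^ 2)) := by rw [div_div]
    _ ≤ |phi (sh (k j) d) - phi (sh (k j) d')| / cyl d (k j) :=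
        div_le_div₀ (abs_nonneg _) h5 hcp hcyl

lemma exists_first_diff (hN : ∀ j, 2 ≤ N j) {t t' : ℝ} (ht : t ∈ Ico (0 : ℝ) 1)
    (ht' : t' ∈ Ico (0 : ℝ) 1) (hne : t ≠ t') :
    ∃ j, (∀ i, i < j → rad N t i = rad N t' i) ∧ rad N t j ≠ rad N t' j := by
  classical
  have hex : ∃ j, rad N t j ≠ rad N t' j := by
    by_contra hcon
    push Not at hcon
    apply hne
    by_contra hne'
    have hpos : 0 < |t - t'| := abs_pos.2 (sub_ne_zero.2 hne')
    obtain ⟨n, hn⟩ := pow_unbounded_of_one_lt (1 / |t - t'|) (show (1 : ℝ) < 2 by norm_num)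
    have hP : ∀ n, (2 : ℝ) ^ n ≤ prd N n := by
      intro n
      unfold prd
      push_cast
      calc (2 : ℝ) ^ n = ∏ _i ∈ Finset.range n, (2 : ℝ) := by simp
        _ ≤ _ := Finset.prod_le_prod (fun _ _ => by norm_num)
          (fun i _ => by exact_mod_cast hN i)
    have h1 := floor_eq_of_agree (fun j => by have := hN j; omega) ht ht' (j := n)
      (fun i _ => hcon i)
    have hP0 : (0 : ℝ) < prd N n := lt_of_lt_of_le (by positivity) (hP n)
    have f1 := Nat.floor_le (mul_nonneg hP0.le ht.1)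
    have f2 := Nat.lt_floor_add_one ((prd N n : ℝ) * t)
    have f3 := Nat.floor_le (mul_nonneg hP0.le ht'.1)
    have f4 := Nat.lt_floor_add_one ((prd N n : ℝ) * t')
    rw [h1] at f1 f2
    have h2 : (prd N n : ℝ) * |t - t'| < 1 := by
      have h0 : (prd N n : ℝ) * |t - t'| = |(prd N n : ℝ) * (t - t')| := by
        rw [abs_mul, abs_of_pos hP0]
      rw [h0, abs_lt]
      constructor <;> nlinarith
    have h3 : 1 < (prd N n : ℝ) * |t - t'| := by
      rw [div_lt_iff₀ hpos] at hn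
      exact hn.trans_le (mul_le_mul_of_nonneg_right (hP n) hpos.le)
    linarith
  refine ⟨Nat.find hex, fun i hi => ?_, Nat.find_spec hex⟩
  have := Nat.find_min hex hi
  push Not at this
  exact this

lemma holder_calc {s C₀ δ N P cc J A B : ℝ} (hs0 : 0 < s) (hs1 : s < 1) (hC₀ : 0 < C₀)
    (hδ : 1 ≤ δ) (hδN : δ ≤ N) (hN : 0 < N) (hP : 0 < P) (hcc : 0 < cc) (hJ : 0 < J)
    (hH : (N * J * cc) ^ s ≤ C₀ * P ^ (1 - 2 * s))
    (hA : δ / (8 * N ^ 2 * (cc * (J * P ^ 2))) ≤ A) (hB : B ≤ 2 * δ / (N * P)) :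
    B ≤ 16 * C₀ * A ^ s := by
  have hδ0 : 0 < δ := by linarith
  have h1 : (δ / (8 * N ^ 2 * (cc * (J * P ^ 2)))) ^ s ≤ A ^ s :=
    Real.rpow_le_rpow (by positivity) hA hs0.le
  have h2 : (8 * N ^ 2 * (cc * (J * P ^ 2))) = 8 * (N * (N * J * cc) * (P * P)) := by ring
  have h3 : (8 * N ^ 2 * (cc * (J * P ^ 2))) ^ s ≤ 8 * (N ^ s * (C₀ * P ^ (1 - 2 * s)) *
      (P ^ (2 * s))) := by
    rw [h2, Real.mul_rpow (by norm_num) (by positivity), Real.mul_rpow (by positivity)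
      (by positivity), Real.mul_rpow (by positivity) (by positivity)]
    have h4 : (8 : ℝ) ^ s ≤ 8 := by
      calc (8 : ℝ) ^ s ≤ 8 ^ (1 : ℝ) := Real.rpow_le_rpow_of_exponent_le (by norm_num) hs1.le
        _ = 8 := Real.rpow_one _
    have h5 : (P * P) ^ s = P ^ (2 * s) := by
      rw [Real.mul_rpow hP.le hP.le, ← Real.rpow_add hP]
      congr 1
      ring
    rw [h5]
    gcongr
  have h6 : P ^ (1 - 2 * s) * P ^ (2 * s) = P := by
    rw [← Real.rpow_add hP]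
    simp
  have h7 : (8 * N ^ 2 * (cc * (J * P ^ 2))) ^ s ≤ 8 * C₀ * N ^ s * P := by
    refine h3.trans (le_of_eq ?_)
    calc 8 * (N ^ s * (C₀ * P ^ (1 - 2 * s)) * (P ^ (2 * s))) =
        8 * C₀ * N ^ s * (P ^ (1 - 2 * s) * P ^ (2 * s)) := by ring
      _ = _ := by rw [h6]
  have hQ : 0 < (8 * N ^ 2 * (cc * (J * P ^ 2))) ^ s := Real.rpow_pos_of_pos (by positivity) _
  have hNs : 0 < N ^ s := Real.rpow_pos_of_pos hN _
  have hδs : 0 < δ ^ s := Real.rpow_pos_of_pos hδ0 _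
  have h8 : δ ^ s / (8 * C₀ * N ^ s * P) ≤ A ^ s := by
    refine le_trans ?_ h1
    rw [Real.div_rpow (by positivity) (by positivity)]
    exact div_le_div_of_nonneg_left hδs.le hQ h7
  have h9 : δ ≤ δ ^ s * N ^ (1 - s) := by
    calc δ = δ ^ s * δ ^ (1 - s) := by
          rw [← Real.rpow_add hδ0]
          simp
      _ ≤ δ ^ s * N ^ (1 - s) := by
          apply mul_le_mul_of_nonneg_left _ hδs.le
          exact Real.rpow_le_rpow hδ0.le hδN (by linarith)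
  have h10 : N ^ (1 - s) * N ^ s = N := by
    rw [← Real.rpow_add hN]
    simp
  calc B ≤ 2 * δ / (N * P) := hB
    _ ≤ 2 * (δ ^ s * N ^ (1 - s)) / (N * P) := by gcongr
    _ = 2 * (δ ^ s * N ^ (1 - s)) / ((N ^ (1 - s) * N ^ s) * P) := by rw [h10]
    _ = 16 * C₀ * (δ ^ s / (8 * C₀ * N ^ s * P)) := by
        have : N ^ (1 - s) ≠ 0 := (Real.rpow_pos_of_pos hN _).ne'
        field_simp
        ring
    _ ≤ 16 * C₀ * A ^ s := by gcongr

lemma holder (hk : StrictMono k) (hk2 : ∀ j, k j + 2 ≤ k (j + 1)) (hc : ∀ n, 2 ≤ c n)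
    (hN : ∀ j, 2 ≤ N j) {s C₀ : ℝ} (hs0 : 0 < s) (hs1 : s < 1) (hC₀ : 0 < C₀)
    (hH : ∀ j, ((N j : ℝ) * 4 ^ j * cyl c (k j)) ^ s ≤ C₀ * (prd N j : ℝ) ^ (1 - 2 * s))
    {t t' : ℝ} (ht : t ∈ Ico (0 : ℝ) 1) (ht' : t' ∈ Ico (0 : ℝ) 1) (hne : t ≠ t') :
    |t - t'| ≤ 16 * C₀ * |phi (dsq c k N t) - phi (dsq c k N t')| ^ s := by
  obtain ⟨j, hj1, hj2⟩ := exists_first_diff hN ht ht' hne
  have hN0 : ∀ j, 0 < N j := fun j => by have := hN j; omega
  have hP : (0 : ℝ) < prd N j := by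
    unfold prd
    exact_mod_cast Finset.prod_pos fun i _ => hN0 i
  have hNj : (0 : ℝ) < N j := by exact_mod_cast hN0 j
  have hB := abs_sub_le_rad hN0 ht ht' hj1 hj2
  have hradt : rad N t j < N j := Nat.mod_lt _ (hN0 j)
  have hradt' : rad N t' j < N j := Nat.mod_lt _ (hN0 j)
  have hδ1 : (1 : ℝ) ≤ |(rad N t' j : ℝ) - rad N t j| := by
    have h0 : (rad N t' j : ℤ) - rad N t j ≠ 0 := by
      intro h0
      apply hj2
      omega
    have h2 := Int.one_le_abs h0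
    have h3 : ((1 : ℤ) : ℝ) ≤ ((|(rad N t' j : ℤ) - rad N t j| : ℤ) : ℝ) := by exact_mod_cast h2
    push_cast at h3
    exact h3
  have hδ2 : |(rad N t' j : ℝ) - rad N t j| ≤ N j := by
    have h1 : (rad N t j : ℝ) ≤ N j := by exact_mod_cast hradt.le
    have h2 : (rad N t' j : ℝ) ≤ N j := by exact_mod_cast hradt'.le
    have h3 : (0 : ℝ) ≤ rad N t j := Nat.cast_nonneg _
    have h4 : (0 : ℝ) ≤ rad N t' j := Nat.cast_nonneg _
    rw [abs_le]
    constructor <;> linarith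
  have hA : |(rad N t' j : ℝ) - rad N t j| /
      (8 * (N j : ℝ) ^ 2 * (cyl c (k j) * (4 ^ j * (prd N j : ℝ) ^ 2)))
      ≤ |phi (dsq c k N t) - phi (dsq c k N t')| := by
    rcases lt_or_gt_of_ne hj2 with h | h
    · exact phi_sep hk hk2 hc hN hj1 h
    · have := phi_sep hk hk2 hc hN (fun i hi => (hj1 i hi).symm) h
      rw [abs_sub_comm, abs_sub_comm (phi (dsq c k N t))]
      exact this
  refine holder_calc hs0 hs1 hC₀ hδ1 hδ2 hNj hP (cyl_pos hc (k j)) (by positivity) (hH j) hA ?_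
  rw [prd_succ] at hB
  rw [abs_sub_comm (rad N t' j : ℝ)]
  push_cast at hB
  exact hB

end Construction

/-- a map with a Hölder inverse does not lower the dimension too much -/
lemma le_dimH_image {f : ℝ → ℝ} {s C : ℝ} (hs : 0 < s) (hC : 0 < C)
    (h : ∀ t ∈ Ico (0 : ℝ) 1, ∀ t' ∈ Ico (0 : ℝ) 1, t ≠ t' → |t - t'| ≤ C * |f t - f t'| ^ s) :
    ENNReal.ofReal s ≤ dimH (f '' Ico (0 : ℝ) 1) := by
  have hinj : InjOn f (Ico (0 : ℝ) 1) := by
    intro t ht t' ht' he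
    by_contra hne
    have := h t ht t' ht' hne
    rw [he, sub_self, abs_zero, Real.zero_rpow hs.ne', mul_zero] at this
    exact hne (sub_eq_zero.1 (abs_nonpos_iff.1 this))
  set g : ℝ → ℝ := Function.invFunOn f (Ico (0 : ℝ) 1) with hg
  have hgf : ∀ t ∈ Ico (0 : ℝ) 1, g (f t) = t := fun t ht => hinj.leftInvOn_invFunOn ht
  have hhol : HolderOnWith (Real.toNNReal C) (Real.toNNReal s) g (f '' Ico (0 : ℝ) 1) := by
    rintro _ ⟨t, ht, rfl⟩ _ ⟨t', ht', rfl⟩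
    rw [hgf t ht, hgf t' ht', edist_dist, edist_dist, Real.coe_toNNReal _ hs.le,
      ENNReal.ofReal_rpow_of_nonneg dist_nonneg hs.le]
    change _ ≤ ENNReal.ofReal _ * _
    rw [← ENNReal.ofReal_mul hC.le]
    apply ENNReal.ofReal_le_ofReal
    by_cases hne : t = t'
    · rw [hne, dist_self]
      positivity
    · rw [Real.dist_eq, Real.dist_eq]
      exact h t ht t' ht' hne
  have h1 := hhol.dimH_image_le (Real.toNNReal_pos.2 hs)
  have h2 : Ico (0 : ℝ) 1 ⊆ g '' (f '' Ico (0 : ℝ) 1) := by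
    intro t ht
    exact ⟨f t, mem_image_of_mem f ht, hgf t ht⟩
  have h3 : (1 : ℝ≥0∞) ≤ dimH (g '' (f '' Ico (0 : ℝ) 1)) := by
    refine le_trans ?_ (dimH_mono h2)
    rw [Real.dimH_of_nonempty_interior]
    · simp
    · rw [interior_Ico]
      exact ⟨1 / 2, by norm_num, by norm_num⟩
  have h4 := h3.trans h1
  have h5 : ((Real.toNNReal s : ℝ≥0) : ℝ≥0∞) ≠ 0 := by
    simpa using hs
  rw [ENNReal.le_div_iff_mul_le (Or.inl h5) (Or.inl ENNReal.coe_ne_top), one_mul] at h4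
  exact h4

/-! ### membership in the asymptotic set -/

lemma mem_AS {T : ℝ → ℝ} (hT : IsLuroth T) {x : ℝ} (hx : ∀ n, T^[n] x ∈ Ioo (0 : ℝ) 1)
    {k N : ℕ → ℕ} (hk : StrictMono k) (hN : ∀ j, 2 ≤ N j)
    (hN' : Tendsto N atTop atTop)
    (hbig : Tendsto (fun j => dig (T^[k j] x)) atTop atTop) (t : ℝ) :
    Tendsto (fun n => |T^[n] x - T^[n] (phi (dsq (fun n => dig (T^[n] x)) k N t))|) atTop (𝓝 0) := by
  set c : ℕ → ℕ := fun n => dig (T^[n] x) with hc
  have hc2 : ∀ n, 2 ≤ c n := fun n => two_le_dig (hx n)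
  set d := dsq c k N t with hd
  have hd2 : ∀ n, 2 ≤ d n := dsq_ge hk hc2 hN t
  have hdN : ∀ j, N j ≤ d (k j) := by
    intro j
    rw [hd, dsq_free hk]
    omega
  have hd3 : ∀ n, ∃ m, n ≤ m ∧ 3 ≤ d m := by
    intro n
    obtain ⟨j, hj1, hj2⟩ := ((hN'.eventually_ge_atTop 3).and (eventually_ge_atTop n)).exists
    exact ⟨k j, hj2.trans (hk.id_le j), hj1.trans (hdN j)⟩
  have hit := iterate_phi hT hd2 hd3
  -- the step
  have hstep : ∀ n, (∀ j, k j ≠ n) → |T^[n] x - T^[n] (phi d)| ≤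
      |T^[n + 1] x - T^[n + 1] (phi d)| := by
    intro n hn
    have e1 : T^[n] x = psi (c n) (T^[n + 1] x) := by
      rw [Function.iterate_succ_apply']
      exact hT.eq_psi (hx n)
    have e2 : T^[n] (phi d) = psi (c n) (T^[n + 1] (phi d)) := by
      have e0 : d n = c n := dsq_fixed hn
      rw [hit, hit, phi_sh hd2 n, e0]
    rw [e1, e2, psi_sub, abs_div]
    apply div_le_self (abs_nonneg _)
    have := two_le_mul (hc2 n)
    rw [abs_of_nonneg (by linarith)]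
    linarith
  have hchain : ∀ i n, (∀ m, n ≤ m → m < n + i → ∀ j, k j ≠ m) →
      |T^[n] x - T^[n] (phi d)| ≤ |T^[n + i] x - T^[n + i] (phi d)| := by
    intro i
    induction i with
    | zero => intro n _; exact le_rfl
    | succ i ih =>
      intro n hn
      refine (ih n (fun m h1 h2 => hn m h1 (by omega))).trans ?_
      exact hstep (n + i) (hn (n + i) (by omega) (by omega))
  rw [Metric.tendsto_atTop]
  intro ε hε
  obtain ⟨M, hM⟩ := exists_nat_gt (1 / ε)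
  obtain ⟨j₀, hj₀⟩ := eventually_atTop.1
    ((hN'.eventually_ge_atTop (M + 2)).and (hbig.eventually_ge_atTop (M + 2)))
  have hfree : ∀ j, j₀ ≤ j → |T^[k j] x - T^[k j] (phi d)| < ε := by
    intro j hj
    obtain ⟨h1, h2⟩ := hj₀ j hj
    have hM0 : (0 : ℝ) < (M : ℝ) + 1 := by positivity
    have hsmall : 1 / ((M : ℝ) + 1) < ε := by
      rw [div_lt_iff₀ hM0]
      rw [div_lt_iff₀ hε] at hM
      nlinarith
    have g1 : T^[k j] x < ε := by
      refine (lt_dig (hx (k j))).trans_le (le_trans ?_ hsmall.le)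
      apply one_div_le_one_div_of_le hM0
      have : ((M + 2 : ℕ) : ℝ) ≤ dig (T^[k j] x) := by exact_mod_cast h2
      push_cast at this
      linarith
    have g2 : T^[k j] (phi d) < ε := by
      rw [hit]
      refine (phi_le (sh_ge hd2 (k j))).trans_lt (lt_of_le_of_lt ?_ hsmall)
      apply one_div_le_one_div_of_le hM0
      have : ((M + 2 : ℕ) : ℝ) ≤ d (k j) := by exact_mod_cast h1.trans (hdN j)
      push_cast at this
      rw [sh, add_zero]
      linarith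
    have g3 := (hx (k j)).1
    have g4 : 0 < T^[k j] (phi d) := by
      rw [hit]
      exact phi_pos (sh_ge hd2 (k j))
    rw [abs_lt]
    constructor <;> linarith
  refine ⟨k j₀, fun n hn => ?_⟩
  rw [Real.dist_eq, sub_zero, abs_abs]
  classical
  have hex : ∃ j, n ≤ k j := ⟨n, hk.id_le n⟩
  have hj1 := Nat.find_spec hex
  have hj2 : ∀ i, i < Nat.find hex → k i < n := fun i hi => by
    have := Nat.find_min hex hi
    omega
  set j := Nat.find hex
  have hj3 : j₀ ≤ j := by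
    by_contra hcon
    push Not at hcon
    have := hk hcon
    omega
  have h1 := hchain (k j - n) n (by
    intro m h1 h2 i hi
    rcases lt_or_ge i j with h3 | h3
    · have := hj2 i h3
      omega
    · have := hk.monotone h3
      omega)
  rw [show n + (k j - n) = k j by omega] at h1
  exact h1.trans_lt (hfree j hj3)

end Pool.Agent.Lib.MP98e33a
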