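import Mathlib
import Pool.Agent.Lib.MP98e33a.Basic

open Set Filter Topology MeasureTheory
open scoped ENNReal NNReal

namespace Pool.Agent.Lib.MP98e33a

/-- `A` has a countable cover with `∑ diam ^ s ≤ c`. -/
def Cov (s : ℝ) (A : Set ℝ) (c : ℝ≥0∞) : Prop :=
  ∃ U : ℕ → Set ℝ, A ⊆ ⋃ i, U i ∧ ∑' i, Metric.ediam (U i) ^ s ≤ c

lemma Cov.mono {s : ℝ} {A B : Set ℝ} {c c' : ℝ≥0∞} (h : Cov s B c) (hA : A ⊆ B) (hc : c ≤ c') :
    Cov s A c' := by
  obtain ⟨U, h1, h2⟩ := h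
  exact ⟨U, hA.trans h1, h2.trans hc⟩

lemma cov_iUnion {s : ℝ} {A : ℕ → Set ℝ} {c : ℕ → ℝ≥0∞} (h : ∀ b, Cov s (A b) (c b)) :
    Cov s (⋃ b, A b) (∑' b, c b) := by
  choose U h1 h2 using h
  refine ⟨fun i => U (Nat.unpair i).1 (Nat.unpair i).2, ?_, ?_⟩
  · intro y hy
    obtain ⟨b, hb⟩ := mem_iUnion.1 hy
    obtain ⟨i, hi⟩ := mem_iUnion.1 (h1 b hb)
    refine mem_iUnion.2 ⟨Nat.pair b i, ?_⟩
    simpa using hi
  · calc ∑' i, Metric.ediam (U (Nat.unpair i).1 (Nat.unpair i).2) ^ s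
        = ∑' p : ℕ × ℕ, Metric.ediam (U p.1 p.2) ^ s :=
          Nat.pairEquiv.symm.tsum_eq (fun p : ℕ × ℕ => Metric.ediam (U p.1 p.2) ^ s)
      _ = ∑' b, ∑' i, Metric.ediam (U b i) ^ s :=
          ENNReal.tsum_prod (f := fun b i => Metric.ediam (U b i) ^ s)
      _ ≤ ∑' b, c b := ENNReal.tsum_le_tsum h2

lemma cov_union {s : ℝ} {A B : Set ℝ} {c c' : ℝ≥0∞} (hA : Cov s A c) (hB : Cov s B c') :
    Cov s (A ∪ B) (c + c') := by
  obtain ⟨U, h1, h2⟩ := hA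
  obtain ⟨V, h3, h4⟩ := hB
  let e : ℕ ⊕ ℕ ≃ ℕ := Equiv.natSumNatEquivNat
  refine ⟨fun i => Sum.elim U V (e.symm i), ?_, ?_⟩
  · rintro y (hy | hy)
    · obtain ⟨i, hi⟩ := mem_iUnion.1 (h1 hy)
      refine mem_iUnion.2 ⟨e (Sum.inl i), ?_⟩
      simpa using hi
    · obtain ⟨i, hi⟩ := mem_iUnion.1 (h3 hy)
      refine mem_iUnion.2 ⟨e (Sum.inr i), ?_⟩
      simpa using hi
  · calc ∑' i, Metric.ediam (Sum.elim U V (e.symm i)) ^ s
        = ∑' p : ℕ ⊕ ℕ, Metric.ediam (Sum.elim U V p) ^ s :=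
          e.symm.tsum_eq (fun p : ℕ ⊕ ℕ => Metric.ediam (Sum.elim U V p) ^ s)
      _ = ∑' i, Metric.ediam (U i) ^ s + ∑' i, Metric.ediam (V i) ^ s := by
          rw [Summable.tsum_sum (f := fun p : ℕ ⊕ ℕ => Metric.ediam (Sum.elim U V p) ^ s)
            ENNReal.summable ENNReal.summable]
          simp
      _ ≤ c + c' := add_le_add h2 h4

/-- the contraction ratio of the branch `b` -/
noncomputable def rat (b : ℕ) : ℝ≥0 := Real.toNNReal (1 / ((b : ℝ) * ((b : ℝ) - 1)))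

lemma coe_rat {b : ℕ} (hb : 2 ≤ b) : ((rat b : ℝ≥0) : ℝ) = 1 / ((b : ℝ) * ((b : ℝ) - 1)) := by
  have hb' : (2 : ℝ) ≤ b := by exact_mod_cast hb
  unfold rat
  rw [Real.coe_toNNReal]
  apply div_nonneg zero_le_one
  nlinarith

lemma lipschitz_psi' {b : ℕ} (hb : 2 ≤ b) : LipschitzWith (rat b) (psi b) := by
  refine LipschitzWith.of_dist_le_mul fun x y => ?_
  have hb' : (2 : ℝ) ≤ b := by exact_mod_cast hb
  rw [Real.dist_eq, Real.dist_eq, psi_sub, abs_div, coe_rat hb,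
    abs_of_nonneg (show (0 : ℝ) ≤ (b : ℝ) * ((b : ℝ) - 1) by nlinarith)]
  apply le_of_eq
  ring

lemma Cov.image_psi {s : ℝ} (hs : 0 ≤ s) {A : Set ℝ} {c : ℝ≥0∞} (h : Cov s A c) {b : ℕ}
    (hb : 2 ≤ b) : Cov s (psi b '' A) (((rat b : ℝ≥0) : ℝ≥0∞) ^ s * c) := by
  obtain ⟨U, h1, h2⟩ := h
  refine ⟨fun i => psi b '' U i, ?_, ?_⟩
  · rw [← image_iUnion]
    exact image_mono h1
  · calc ∑' i, Metric.ediam (psi b '' U i) ^ s
        ≤ ∑' i, ((rat b : ℝ≥0) : ℝ≥0∞) ^ s * Metric.ediam (U i) ^ s := by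
          apply ENNReal.tsum_le_tsum
          intro i
          rw [← ENNReal.mul_rpow_of_nonneg _ _ hs]
          exact ENNReal.rpow_le_rpow ((lipschitz_psi' hb).ediam_image_le _) hs
      _ = ((rat b : ℝ≥0) : ℝ≥0∞) ^ s * ∑' i, Metric.ediam (U i) ^ s := ENNReal.tsum_mul_left
      _ ≤ _ := by gcongr

lemma dimH_le_of_cov {s : ℝ≥0} (hs : 0 < s) {A : Set ℝ} (h : ∀ m : ℕ, Cov s A (2⁻¹ ^ m)) :
    dimH A ≤ s := by
  choose U h1 h2 using h
  have hs' : (0 : ℝ) < s := hs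
  have h3 := MeasureTheory.Measure.hausdorffMeasure_le_liminf_tsum (X := ℝ) (s : ℝ) A
    (l := atTop) (ι := fun _ : ℕ => ℕ) (fun m : ℕ => ((2⁻¹ : ℝ≥0∞) ^ m) ^ (s : ℝ)⁻¹) ?_ U ?_ ?_
  · have h4 : μH[(s : ℝ)] A ≤ 1 := by
      refine h3.trans ?_
      refine liminf_le_of_le (by isBoundedDefault) ?_
      intro b hb
      obtain ⟨n, hn⟩ := hb.exists
      refine hn.trans ((h2 n).trans ?_)
      apply pow_le_one₀ (by positivity)
      simp
    exact dimH_le_of_hausdorffMeasure_ne_top (ne_top_of_le_ne_top ENNReal.one_ne_top h4)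
  · have h4 : Tendsto (fun m : ℕ => (2⁻¹ : ℝ≥0∞) ^ m) atTop (𝓝 0) :=
      ENNReal.tendsto_pow_atTop_nhds_zero_of_lt_one (by simp)
    have h5 := (ENNReal.continuous_rpow_const (y := (s : ℝ)⁻¹)).tendsto 0
    rw [ENNReal.zero_rpow_of_pos (by positivity)] at h5
    exact h5.comp h4
  · refine Eventually.of_forall fun m i => ?_
    have h6 : Metric.ediam (U m i) ^ (s : ℝ) ≤ 2⁻¹ ^ m := (ENNReal.le_tsum i).trans (h2 m)
    calc Metric.ediam (U m i) = (Metric.ediam (U m i) ^ (s : ℝ)) ^ (s : ℝ)⁻¹ := by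
          rw [← ENNReal.rpow_mul, mul_inv_cancel₀ hs'.ne', ENNReal.rpow_one]
      _ ≤ _ := ENNReal.rpow_le_rpow h6 (by positivity)
  · exact Eventually.of_forall fun m => h1 m

variable {T : ℝ → ℝ}

/-- points whose orbit stays in `(0, 1)` and whose digits are equal to those of the sequence `c`
from index `n` on, or at least `M` -/
def Z (T : ℝ → ℝ) (c : ℕ → ℕ) (M n : ℕ) : Set ℝ :=
  {y | (∀ k, T^[k] y ∈ Ioo (0 : ℝ) 1) ∧ ∀ k, dig (T^[k] y) = c (n + k) ∨ M ≤ dig (T^[k] y)}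

lemma Z_subset (hT : IsLuroth T) (c : ℕ → ℕ) (M n : ℕ) :
    Z T c M n ⊆ psi (c n) '' Z T c M (n + 1) ∪ ⋃ k : ℕ, psi (k + M) '' Z T c M (n + 1) := by
  rintro y ⟨hy1, hy2⟩
  have hyT : T y ∈ Z T c M (n + 1) := by
    refine ⟨fun k => ?_, fun k => ?_⟩
    · rw [← Function.iterate_succ_apply]
      exact hy1 (k + 1)
    · rw [← Function.iterate_succ_apply, show n + 1 + k = n + (k + 1) by ring]
      exact hy2 (k + 1)
  have hy : y = psi (dig y) (T y) := hT.eq_psi (hy1 0)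
  rcases hy2 0 with h | h
  · left
    refine ⟨T y, hyT, ?_⟩
    simp only [Function.iterate_zero, id, add_zero] at h
    rw [← h]
    exact hy.symm
  · right
    simp only [Function.iterate_zero, id] at h
    refine mem_iUnion.2 ⟨dig y - M, T y, hyT, ?_⟩
    rw [Nat.sub_add_cancel h]
    exact hy.symm

lemma rat_le_half {b : ℕ} (hb : 2 ≤ b) : ((rat b : ℝ≥0) : ℝ≥0∞) ≤ 2⁻¹ := by
  have hb' : (2 : ℝ) ≤ b := by exact_mod_cast hb
  have h1 : (rat b : ℝ) ≤ 2⁻¹ := by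
    rw [coe_rat hb]
    rw [one_div]
    apply inv_anti₀ (by norm_num)
    nlinarith
  have h2 : rat b ≤ (2⁻¹ : ℝ≥0) := by
    rw [← NNReal.coe_le_coe]
    simpa using h1
  calc ((rat b : ℝ≥0) : ℝ≥0∞) ≤ ((2⁻¹ : ℝ≥0) : ℝ≥0∞) := by exact_mod_cast h2
    _ = 2⁻¹ := by
      rw [ENNReal.coe_inv (by norm_num)]
      rfl

lemma cov_Z_step (hT : IsLuroth T) {s : ℝ} (hs : 0 ≤ s) (c : ℕ → ℕ) (hc : ∀ k, 2 ≤ c k) {M : ℕ}
    (hM : 2 ≤ M) {C : ℝ≥0∞} (h : ∀ n, Cov s (Z T c M n) C) (n : ℕ) :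
    Cov s (Z T c M n) (((2⁻¹ : ℝ≥0∞) ^ s + ∑' k, ((rat (k + M) : ℝ≥0) : ℝ≥0∞) ^ s) * C) := by
  have h1 := (h (n + 1)).image_psi hs (hc n)
  have h2 := cov_iUnion (fun k : ℕ => (h (n + 1)).image_psi hs (show 2 ≤ k + M by omega))
  refine (cov_union h1 h2).mono (Z_subset hT c M n) ?_
  rw [add_mul, ENNReal.tsum_mul_right]
  gcongr
  exact rat_le_half (hc n)

lemma cov_Z_zero {s : ℝ} (hs : 0 < s) (c : ℕ → ℕ) (M n : ℕ) : Cov s (Z T c M n) 1 := by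
  refine ⟨fun i => if i = 0 then Ioo 0 1 else ∅, ?_, ?_⟩
  · intro y hy
    refine mem_iUnion.2 ⟨0, ?_⟩
    simpa using hy.1 0
  · rw [tsum_eq_single 0]
    · simp [Real.ediam_Ioo]
    · intro b hb
      simp [hb, hs]

lemma cov_Z_pow (hT : IsLuroth T) {s : ℝ} (hs : 0 < s) (c : ℕ → ℕ) (hc : ∀ k, 2 ≤ c k) {M : ℕ}
    (hM : 2 ≤ M) (m n : ℕ) :
    Cov s (Z T c M n) (((2⁻¹ : ℝ≥0∞) ^ s + ∑' k, ((rat (k + M) : ℝ≥0) : ℝ≥0∞) ^ s) ^ m) := by
  induction m generalizing n with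
  | zero => simpa using cov_Z_zero hs c M n
  | succ m ih =>
    rw [pow_succ']
    exact cov_Z_step hT hs.le c hc hM ih n

lemma tsum_rat_ne_top {s : ℝ} (hs : 1 / 2 < s) :
    ∑' k : ℕ, ((rat (k + 2) : ℝ≥0) : ℝ≥0∞) ^ s ≠ ∞ := by
  have h1 : Summable (fun k : ℕ => (((k : ℝ)) ^ (2 * s))⁻¹) :=
    Real.summable_nat_rpow_inv.2 (by linarith)
  have h2 : Summable (fun k : ℕ => (((k + 1 : ℕ) : ℝ) ^ (2 * s))⁻¹) :=
    (summable_nat_add_iff 1).2 h1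
  have h3 : ∑' k : ℕ, ENNReal.ofReal ((((k + 1 : ℕ) : ℝ) ^ (2 * s))⁻¹) ≠ ∞ :=
    h2.tsum_ofReal_ne_top
  refine ne_top_of_le_ne_top h3 (ENNReal.tsum_le_tsum fun k => ?_)
  rw [show ((rat (k + 2) : ℝ≥0) : ℝ≥0∞) = ENNReal.ofReal (rat (k + 2) : ℝ) by simp]
  rw [ENNReal.ofReal_rpow_of_nonneg (by positivity) (by linarith)]
  apply ENNReal.ofReal_le_ofReal
  rw [coe_rat (by omega), Real.rpow_mul (by positivity), ← Real.inv_rpow (by positivity)]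
  apply Real.rpow_le_rpow
  · apply div_nonneg zero_le_one
    push_cast
    nlinarith
  · rw [one_div, Real.rpow_two]
    apply inv_anti₀ (by positivity)
    push_cast
    nlinarith
  · linarith

lemma exists_M {s : ℝ} (hs : 1 / 2 < s) : ∃ M : ℕ, 2 ≤ M ∧
    (2⁻¹ : ℝ≥0∞) ^ s + ∑' k, ((rat (k + M) : ℝ≥0) : ℝ≥0∞) ^ s < 1 := by
  have h1 := ENNReal.tendsto_sum_nat_add
    (fun k : ℕ => ((rat (k + 2) : ℝ≥0) : ℝ≥0∞) ^ s) (tsum_rat_ne_top hs)
  have h2 : (2⁻¹ : ℝ≥0∞) ^ s < 1 := ENNReal.rpow_lt_one (by simp) (by linarith)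
  have h3 : (0 : ℝ≥0∞) < 1 - (2⁻¹ : ℝ≥0∞) ^ s := tsub_pos_of_lt h2
  obtain ⟨N, hN⟩ := (h1.eventually_lt_const h3).exists
  refine ⟨N + 2, by omega, ?_⟩
  have h4 : ∀ k, k + N + 2 = k + (N + 2) := fun k => by ring
  simp only [h4] at hN
  exact lt_tsub_iff_left.1 hN

lemma dimH_Z_le (hT : IsLuroth T) {s : ℝ≥0} (hs : 1 / 2 < (s : ℝ)) (c : ℕ → ℕ)
    (hc : ∀ k, 2 ≤ c k) {M : ℕ} (hM : 2 ≤ M)
    (hM2 : (2⁻¹ : ℝ≥0∞) ^ (s : ℝ) + ∑' k, ((rat (k + M) : ℝ≥0) : ℝ≥0∞) ^ (s : ℝ) < 1) (n : ℕ) :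
    dimH (Z T c M n) ≤ s := by
  have hs0 : (0 : ℝ) < s := by linarith
  apply dimH_le_of_cov (by exact_mod_cast hs0)
  intro m
  have h1 := ENNReal.tendsto_pow_atTop_nhds_zero_of_lt_one hM2
  have h2 : (0 : ℝ≥0∞) < 2⁻¹ ^ m := ENNReal.pow_pos (by simp) m
  obtain ⟨N, hN⟩ := (h1.eventually_lt_const h2).exists
  exact (cov_Z_pow hT hs0 c hc hM N n).mono subset_rfl hN.le

/-- if two points are close but have different digits, one of which is small, then their images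
are not close -/
lemma adj (hT : IsLuroth T) {u v : ℝ} (hu : u ∈ Ioo (0 : ℝ) 1) (hv : v ∈ Ioo (0 : ℝ) 1)
    {M : ℕ} (huM : dig u ≤ M) (hlt : dig u < dig v)
    (hd : |u - v| < 1 / (4 * ((M : ℝ) + 1) ^ 2)) : 1 / (4 * ((M : ℝ) + 1) ^ 2) ≤ |T u - T v| := by
  have hM : (dig u : ℝ) ≤ M := by exact_mod_cast huM
  have hM2 : (2 : ℝ) ≤ M := le_trans (by exact_mod_cast two_le_dig hu) hM
  set ε : ℝ := 1 / (4 * ((M : ℝ) + 1) ^ 2) with hε
  have hε0 : 0 < ε := by positivity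
  have hε1 : ε * (4 * ((M : ℝ) + 1) ^ 2) = 1 := by
    rw [hε]
    field_simp
  have ha2 : (2 : ℝ) ≤ dig u := by exact_mod_cast two_le_dig hu
  have hb2 : (2 : ℝ) ≤ dig v := by exact_mod_cast two_le_dig hv
  have h1 := dig_le hu
  have h2 := lt_dig hv
  have hTu := hT.eq_dig hu
  have hTv := hT.eq_dig hv
  set a : ℝ := (dig u : ℝ) with ha
  set b : ℝ := (dig v : ℝ) with hb
  have hab : a + 1 ≤ b := by
    rw [ha, hb]
    exact_mod_cast hlt
  rw [div_le_iff₀ (by linarith)] at h1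
  rw [lt_div_iff₀ (by linarith)] at h2
  have h3 : u - v < ε := (le_abs_self _).trans_lt hd
  have hu0 := hu.1
  have hv0 := hv.1
  -- `b = a + 1`
  have hb1 : b < a + 2 := by
    by_contra hcon
    push Not at hcon
    have h4 : v * (a + 1) < 1 := by nlinarith
    have h5 : a * (a + 1) * (u - v) > 1 := by nlinarith
    have h6 : a * (a + 1) * (u - v) ≤ a * (a + 1) * ε := by
      apply mul_le_mul_of_nonneg_left h3.le (by nlinarith)
    have h7 : a * (a + 1) * ε ≤ ((M : ℝ) + 1) ^ 2 * ε := by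
      apply mul_le_mul_of_nonneg_right _ hε0.le
      nlinarith
    nlinarith
  have hb3 : b = a + 1 := by
    have : dig v < dig u + 2 := by
      have h : ((dig v : ℕ) : ℝ) < ((dig u + 2 : ℕ) : ℝ) := by
        push_cast
        exact hb1
      exact_mod_cast h
    have h' : dig v = dig u + 1 := by omega
    rw [hb, h', ha]
    push_cast
    rfl
  rw [hb3] at h2 hTv
  have h8 : T u < a * a * ε := by
    rw [hTu]
    have : a * u - 1 < a * ε := by nlinarith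
    nlinarith
  have h9 : 1 - a * (a + 1) * ε < T v := by
    rw [hTv]
    have : 1 - a * v < a * ε := by nlinarith
    nlinarith
  have h10 : a * a * ε ≤ ((M : ℝ) + 1) ^ 2 * ε := by
    apply mul_le_mul_of_nonneg_right _ hε0.le
    nlinarith
  have h11 : a * (a + 1) * ε ≤ ((M : ℝ) + 1) ^ 2 * ε := by
    apply mul_le_mul_of_nonneg_right _ hε0.le
    nlinarith
  have h12 : ε ≤ ((M : ℝ) + 1) ^ 2 * ε := by nlinarith
  rw [abs_sub_comm]
  refine le_trans ?_ (le_abs_self _)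
  nlinarith

/-- Upper bound: the asymptotic set of a point whose orbit stays in `(0, 1)` has dimension at
most `1 / 2`. -/
lemma dimH_AS_le (hT : IsLuroth T) {x : ℝ} (hx : ∀ n, T^[n] x ∈ Ioo (0 : ℝ) 1) :
    dimH {y | y ∈ Icc (0 : ℝ) 1 ∧ Tendsto (fun n => |T^[n] x - T^[n] y|) atTop (𝓝 0)} ≤
      ((1 / 2 : ℝ≥0) : ℝ≥0∞) := by
  apply le_of_forall_gt
  intro t ht
  obtain ⟨s, hs1, hs2⟩ := ENNReal.lt_iff_exists_nnreal_btwn.1 ht
  refine lt_of_le_of_lt ?_ hs2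
  have hs : 1 / 2 < (s : ℝ) := by
    have h1 : (1 / 2 : ℝ≥0) < s := by exact_mod_cast hs1
    have h2 : (((1 / 2 : ℝ≥0)) : ℝ) < s := by exact_mod_cast h1
    simpa using h2
  obtain ⟨M, hM, hM2⟩ := exists_M hs
  set c : ℕ → ℕ := fun k => dig (T^[k] x) with hc
  have hc2 : ∀ k, 2 ≤ c k := fun k => two_le_dig (hx k)
  have hsub : {y | y ∈ Icc (0 : ℝ) 1 ∧ Tendsto (fun n => |T^[n] x - T^[n] y|) atTop (𝓝 0)} ⊆
      (⋃ n : ℕ, {y | y ∈ Icc (0 : ℝ) 1 ∧ T^[n] y ∈ ({0, 1} : Set ℝ)}) ∪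
      ⋃ n : ℕ, {y | y ∈ Icc (0 : ℝ) 1 ∧ T^[n] y ∈ Z T c M n} := by
    rintro y ⟨hy, hlim⟩
    by_cases hyn : ∃ n, T^[n] y ∈ ({0, 1} : Set ℝ)
    · left
      obtain ⟨n, hn⟩ := hyn
      exact mem_iUnion.2 ⟨n, hy, hn⟩
    right
    push Not at hyn
    have hyI : ∀ n, T^[n] y ∈ Ioo (0 : ℝ) 1 := by
      intro n
      have h1 := hT.iterate_mem hy n
      have h2 := hyn n
      simp only [mem_insert_iff, mem_singleton_iff, not_or] at h2
      exact ⟨lt_of_le_of_ne h1.1 (Ne.symm h2.1), lt_of_le_of_ne h1.2 h2.2⟩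
    have hε : (0 : ℝ) < 1 / (4 * ((M : ℝ) + 1) ^ 2) := by positivity
    obtain ⟨n, hn⟩ := eventually_atTop.1 (hlim.eventually_lt_const hε)
    refine mem_iUnion.2 ⟨n, hy, fun k => ?_, fun k => ?_⟩
    · rw [← Function.iterate_add_apply]
      exact hyI _
    · rw [← Function.iterate_add_apply, add_comm k n]
      by_contra hcon
      push Not at hcon
      have h1 := hn (n + k) (by omega)
      have h2 := hn (n + k + 1) (by omega)
      rw [Function.iterate_succ_apply', Function.iterate_succ_apply'] at h2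
      rcases lt_or_gt_of_ne hcon.1 with h3 | h3
      · rw [abs_sub_comm] at h1 h2
        have := adj hT (hyI (n + k)) (hx (n + k)) hcon.2.le h3 h1
        linarith
      · have := adj hT (hx (n + k)) (hyI (n + k)) (h3.le.trans hcon.2.le) h3 h1
        linarith
  refine (dimH_mono hsub).trans ?_
  rw [dimH_union]
  apply max_le
  · rw [dimH_iUnion]
    apply iSup_le
    intro n
    refine (hT.dimH_preimage _ n).trans ?_
    rw [dimH_countable (Set.Finite.countable (by simp))]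
    exact zero_le
  · rw [dimH_iUnion]
    apply iSup_le
    intro n
    refine (hT.dimH_preimage _ n).trans ?_
    exact dimH_Z_le hT hs c hc2 hM hM2 n

end Pool.Agent.Lib.MP98e33a
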