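import Mathlib
import Pool.Agent.Lib.MP98e33a.Basic
import Pool.Agent.Lib.MP98e33a.Upper
import Pool.Agent.Lib.MP98e33a.Lower

open Set Filter Topology MeasureTheory
open scoped ENNReal NNReal

namespace Pool.Agent.Lib.MP98e33a

variable {T : ℝ → ℝ}

/-- points whose orbit stays in the open unit interval -/
def Good (T : ℝ → ℝ) : Set ℝ := {x | ∀ n, T^[n] x ∈ Ioo (0 : ℝ) 1}

lemma volume_psi {b : ℕ} (hb : 2 ≤ b) (S : Set ℝ) :
    volume (psi b '' S) ≤ ((rat b : ℝ≥0) : ℝ≥0∞) * volume S := by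
  rw [← hausdorffMeasure_real]
  have := (lipschitz_psi' hb).hausdorffMeasure_image_le (d := 1) zero_le_one S
  simpa using this

lemma sum_rat (m : ℕ) : ∑ b ∈ Finset.range m, ((rat (b + 2) : ℝ≥0) : ℝ≥0∞) =
    ENNReal.ofReal (1 - 1 / ((m : ℝ) + 1)) := by
  induction m with
  | zero => simp
  | succ m ih =>
    rw [Finset.sum_range_succ, ih,
      show ((rat (m + 2) : ℝ≥0) : ℝ≥0∞) = ENNReal.ofReal (rat (m + 2) : ℝ) by simp,
      ← ENNReal.ofReal_add, coe_rat (by omega)]
    · congr 1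
      push_cast
      have : (m : ℝ) + 1 ≠ 0 := by positivity
      have : (m : ℝ) + 2 ≠ 0 := by positivity
      have : (m : ℝ) + 1 + 1 ≠ 0 := by positivity
      have e : (m : ℝ) + 2 - 1 = m + 1 := by ring
      rw [e]
      field_simp
      ring
    · rw [sub_nonneg, div_le_one (by positivity)]
      linarith [show (0 : ℝ) ≤ m from Nat.cast_nonneg m]
    · positivity

lemma tsum_rat_le : ∑' b : ℕ, ((rat (b + 2) : ℝ≥0) : ℝ≥0∞) ≤ 1 := by
  rw [ENNReal.tsum_eq_iSup_nat]
  apply iSup_le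
  intro m
  rw [sum_rat]
  rw [ENNReal.ofReal_le_one]
  have : 0 ≤ 1 / ((m : ℝ) + 1) := by positivity
  linarith

lemma volume_pre_one (hT : IsLuroth T) (A : Set ℝ) :
    volume {x | x ∈ Ioo (0 : ℝ) 1 ∧ T x ∈ A} ≤ volume A := by
  calc volume {x | x ∈ Ioo (0 : ℝ) 1 ∧ T x ∈ A}
      ≤ volume (⋃ b : ℕ, psi (b + 2) '' A) := measure_mono (hT.preimage_subset A)
    _ ≤ ∑' b : ℕ, volume (psi (b + 2) '' A) := measure_iUnion_le _
    _ ≤ ∑' b : ℕ, ((rat (b + 2) : ℝ≥0) : ℝ≥0∞) * volume A :=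
        ENNReal.tsum_le_tsum fun b => volume_psi (by omega) A
    _ = (∑' b : ℕ, ((rat (b + 2) : ℝ≥0) : ℝ≥0∞)) * volume A := ENNReal.tsum_mul_right
    _ ≤ 1 * volume A := by gcongr; exact tsum_rat_le
    _ = volume A := one_mul _

lemma volume_pre (hT : IsLuroth T) (A : Set ℝ) (n : ℕ) :
    volume {x | x ∈ Good T ∧ T^[n] x ∈ A} ≤ volume (Good T ∩ A) := by
  induction n with
  | zero => exact le_rfl
  | succ n ih =>
    refine le_trans ?_ ih
    refine le_trans (measure_mono ?_) (volume_pre_one hT {x | x ∈ Good T ∧ T^[n] x ∈ A})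
    rintro x ⟨hx, hxA⟩
    refine ⟨hx 0, fun k => ?_, ?_⟩
    · rw [← Function.iterate_succ_apply]
      exact hx (k + 1)
    · rw [← Function.iterate_succ_apply]
      exact hxA

lemma volume_dig_ge {m : ℕ} (hm : 2 ≤ m) :
    volume (Good T ∩ {x | m ≤ dig x}) ≤ ENNReal.ofReal (1 / ((m : ℝ) - 1)) := by
  have hm' : (2 : ℝ) ≤ m := by exact_mod_cast hm
  calc volume (Good T ∩ {x | m ≤ dig x}) ≤ volume (Ioo (0 : ℝ) (1 / ((m : ℝ) - 1))) := by
        apply measure_mono
        rintro x ⟨hx, hxm⟩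
        refine ⟨(hx 0).1, (lt_dig (hx 0)).trans_le ?_⟩
        apply one_div_le_one_div_of_le (by linarith)
        have : (m : ℝ) ≤ dig x := by exact_mod_cast hxm
        exact sub_le_sub_right this 1
    _ = _ := by rw [Real.volume_Ioo, sub_zero]

lemma volume_block (hT : IsLuroth T) (m ℓ : ℕ) :
    volume (Good T ∩ {x | ∀ i, i < ℓ → dig (T^[i] x) < m + 2}) ≤
      ENNReal.ofReal (1 - 1 / ((m : ℝ) + 1)) ^ ℓ := by
  induction ℓ with
  | zero =>
    rw [pow_zero]
    calc volume (Good T ∩ {x | ∀ i, i < 0 → dig (T^[i] x) < m + 2}) ≤ volume (Ioo (0 : ℝ) 1) :=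
          measure_mono fun x hx => hx.1 0
      _ = 1 := by rw [Real.volume_Ioo]; simp
  | succ ℓ ih =>
    rw [pow_succ', ← sum_rat]
    have hsub : Good T ∩ {x | ∀ i, i < ℓ + 1 → dig (T^[i] x) < m + 2} ⊆
        ⋃ b ∈ Finset.range m, psi (b + 2) ''
          (Good T ∩ {x | ∀ i, i < ℓ → dig (T^[i] x) < m + 2}) := by
      rintro x ⟨hx, hxm⟩
      have h2 := two_le_dig (hx 0)
      have h3 := hxm 0 (by omega)
      simp only [Function.iterate_zero, id] at h2 h3
      refine mem_iUnion₂.2 ⟨dig x - 2, Finset.mem_range.2 (by omega), T x, ⟨?_, ?_⟩, ?_⟩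
      · intro k
        rw [← Function.iterate_succ_apply]
        exact hx (k + 1)
      · intro i hi
        rw [← Function.iterate_succ_apply]
        exact hxm (i + 1) (by omega)
      · rw [show dig x - 2 + 2 = dig x by omega]
        exact (hT.eq_psi (hx 0)).symm
    refine (measure_mono hsub).trans ((measure_biUnion_finset_le _ _).trans ?_)
    rw [Finset.sum_mul]
    apply Finset.sum_le_sum
    intro b _
    refine (volume_psi (by omega) _).trans ?_
    gcongr
    rw [sum_rat]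
    exact ih

lemma ae_growth (hT : IsLuroth T) :
    volume {x | x ∈ Good T ∧ ∃ᶠ n in atTop, (n + 2) ^ 2 ≤ dig (T^[n] x)} = 0 := by
  have h1 := measure_setOfPred_frequently_eq_zero (μ := (volume : Measure ℝ))
    (p := fun (n : ℕ) x => x ∈ Good T ∧ (n + 2) ^ 2 ≤ dig (T^[n] x)) ?_
  · refine measure_mono_null ?_ h1
    rintro x ⟨hx, hf⟩
    exact hf.mono fun n hn => ⟨hx, hn⟩
  · have hb : ∀ n : ℕ, volume {x | x ∈ Good T ∧ (n + 2) ^ 2 ≤ dig (T^[n] x)} ≤
        ENNReal.ofReal ((((n + 1 : ℕ) : ℝ) ^ 2)⁻¹) := by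
      intro n
      refine (volume_pre hT {z | (n + 2) ^ 2 ≤ dig z} n).trans
        ((volume_dig_ge (by
          have : 2 ^ 2 ≤ (n + 2) ^ 2 := Nat.pow_le_pow_left (by omega) 2
          omega)).trans ?_)
      apply ENNReal.ofReal_le_ofReal
      rw [one_div]
      apply inv_anti₀ (by positivity)
      push_cast
      nlinarith [show (0 : ℝ) ≤ n from Nat.cast_nonneg n]
    have h2 : Summable (fun n : ℕ => (((n + 1 : ℕ) : ℝ) ^ 2)⁻¹) :=
      (summable_nat_add_iff 1).2 (Real.summable_nat_pow_inv.2 (by norm_num))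
    exact ne_top_of_le_ne_top h2.tsum_ofReal_ne_top (ENNReal.tsum_le_tsum hb)

lemma ae_big (hT : IsLuroth T) :
    volume {x | x ∈ Good T ∧ ∃ᶠ j in atTop, ∀ i, i < j ^ 2 → dig (T^[j ^ 3 + i] x) < j + 2} = 0 := by
  have h1 := measure_setOfPred_frequently_eq_zero (μ := (volume : Measure ℝ))
    (p := fun (j : ℕ) x => x ∈ Good T ∧ ∀ i, i < j ^ 2 → dig (T^[j ^ 3 + i] x) < j + 2) ?_
  · refine measure_mono_null ?_ h1
    rintro x ⟨hx, hf⟩
    exact hf.mono fun n hn => ⟨hx, hn⟩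
  · have hb : ∀ j : ℕ, volume {x | x ∈ Good T ∧ ∀ i, i < j ^ 2 → dig (T^[j ^ 3 + i] x) < j + 2} ≤
        ENNReal.ofReal (Real.exp 1 * (Real.exp (-1)) ^ j) := by
      intro j
      have e1 : {x | x ∈ Good T ∧ ∀ i, i < j ^ 2 → dig (T^[j ^ 3 + i] x) < j + 2} =
          {x | x ∈ Good T ∧ T^[j ^ 3] x ∈ {z | ∀ i, i < j ^ 2 → dig (T^[i] z) < j + 2}} := by
        ext x
        simp only [mem_ofPred_eq]
        refine and_congr_right fun _ => forall_congr' fun i => ?_
        rw [add_comm, Function.iterate_add_apply]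
      rw [e1]
      refine (volume_pre hT _ (j ^ 3)).trans ((volume_block hT j (j ^ 2)).trans ?_)
      have h0 : (0 : ℝ) ≤ 1 - 1 / ((j : ℝ) + 1) := by
        rw [sub_nonneg, div_le_one (by positivity)]
        linarith [show (0 : ℝ) ≤ j from Nat.cast_nonneg j]
      rw [← ENNReal.ofReal_pow h0]
      apply ENNReal.ofReal_le_ofReal
      have h2 : 1 - 1 / ((j : ℝ) + 1) ≤ Real.exp (-(1 / ((j : ℝ) + 1))) := by
        have := Real.add_one_le_exp (-(1 / ((j : ℝ) + 1)))
        linarith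
      calc (1 - 1 / ((j : ℝ) + 1)) ^ (j ^ 2) ≤ (Real.exp (-(1 / ((j : ℝ) + 1)))) ^ (j ^ 2) :=
            pow_le_pow_left₀ h0 h2 _
        _ = Real.exp (-((j : ℝ) ^ 2 / ((j : ℝ) + 1))) := by
            rw [← Real.exp_nat_mul]
            congr 1
            push_cast
            ring
        _ ≤ Real.exp (1 + j * (-1)) := by
            apply Real.exp_le_exp.2
            have h3 : (j : ℝ) - 1 ≤ (j : ℝ) ^ 2 / ((j : ℝ) + 1) := by
              rw [le_div_iff₀ (by positivity)]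
              nlinarith
            linarith
        _ = Real.exp 1 * (Real.exp (-1)) ^ j := by
            rw [Real.exp_add, ← Real.exp_nat_mul]
    have h2 : Summable (fun j : ℕ => Real.exp 1 * (Real.exp (-1)) ^ j) := by
      apply Summable.mul_left
      apply summable_geometric_of_lt_one (Real.exp_pos _).le
      rw [Real.exp_lt_one_iff]
      norm_num
    exact ne_top_of_le_ne_top h2.tsum_ofReal_ne_top (ENNReal.tsum_le_tsum hb)

end Pool.Agent.Lib.MP98e33a
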