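import Mathlib
import Pool.Agent.Lib.MP98e33a.Basic
import Pool.Agent.Lib.MP98e33a.Upper
import Pool.Agent.Lib.MP98e33a.Lower
import Pool.Agent.Lib.MP98e33a.Ae

open Set Filter Topology MeasureTheory
open scoped ENNReal NNReal

namespace Pool.Agent.Lib.MP98e33a

/-! ### growth estimates -/

/-- the bases `N_j = 2 ^ ((j + 1) ^ 6 - j ^ 6)` -/
def NN (j : ℕ) : ℕ := 2 ^ ((j + 1) ^ 6 - j ^ 6)

lemma pow_six_le (j : ℕ) : j ^ 6 ≤ (j + 1) ^ 6 := Nat.pow_le_pow_left (by omega) 6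

lemma prd_NN (j : ℕ) : prd NN j = 2 ^ (j ^ 6) := by
  induction j with
  | zero => simp [prd]
  | succ j ih =>
    rw [prd_succ, ih, NN, ← pow_add]
    congr 1
    have := pow_six_le j
    omega

lemma six_diff_ge (j : ℕ) : j + 1 ≤ (j + 1) ^ 6 - j ^ 6 := by
  have h : j ^ 6 + (j + 1) ≤ (j + 1) ^ 6 := by
    have e : (j + 1) ^ 6 = j ^ 6 + (6 * j ^ 5 + 15 * j ^ 4 + 20 * j ^ 3 + 15 * j ^ 2 + 6 * j + 1) := by
      ring
    rw [e]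
    have : j + 1 ≤ 6 * j ^ 5 + 15 * j ^ 4 + 20 * j ^ 3 + 15 * j ^ 2 + 6 * j + 1 := by
      have : 0 ≤ 6 * j ^ 5 + 15 * j ^ 4 + 20 * j ^ 3 + 15 * j ^ 2 := Nat.zero_le _
      omega
    omega
  omega

lemma six_diff_le (j : ℕ) : (j + 1) ^ 6 - j ^ 6 ≤ 6 * (j + 1) ^ 5 := by
  have h : (j + 1) ^ 6 ≤ j ^ 6 + 6 * (j + 1) ^ 5 := by
    have e1 : (j + 1) ^ 6 =
        j ^ 6 + (6 * j ^ 5 + 15 * j ^ 4 + 20 * j ^ 3 + 15 * j ^ 2 + 6 * j + 1) := by ring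
    have e2 : j ^ 6 + 6 * (j + 1) ^ 5 = j ^ 6 + (6 * j ^ 5 + 15 * j ^ 4 + 20 * j ^ 3 + 15 * j ^ 2 +
        6 * j + 1) + (15 * j ^ 4 + 40 * j ^ 3 + 45 * j ^ 2 + 24 * j + 5) := by ring
    rw [e2, e1]
    omega
  omega

lemma two_le_NN (j : ℕ) : 2 ≤ NN j := by
  unfold NN
  calc 2 = 2 ^ 1 := rfl
    _ ≤ 2 ^ ((j + 1) ^ 6 - j ^ 6) :=
      Nat.pow_le_pow_right (by norm_num) (by have := six_diff_ge j; omega)

lemma tendsto_NN : Tendsto NN atTop atTop := by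
  refine tendsto_atTop_mono (fun j => ?_) tendsto_id
  unfold NN
  have h1 : j < 2 ^ j := Nat.lt_two_pow_self
  have h2 : 2 ^ j ≤ 2 ^ ((j + 1) ^ 6 - j ^ 6) :=
    Nat.pow_le_pow_right (by norm_num) (by have := six_diff_ge j; omega)
  simp only [id]
  omega

lemma cyl_le {c : ℕ → ℕ} (hc : ∀ n, 2 ≤ c n) {C₁ : ℕ} (hC₁ : ∀ n, c n ≤ (n + C₁) ^ 2) (m : ℕ) :
    cyl c m ≤ ((m : ℝ) + C₁) ^ (4 * m) := by
  have h : ∀ i ∈ Finset.range m, (c i : ℝ) * ((c i : ℝ) - 1) ≤ ((m : ℝ) + C₁) ^ 4 := by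
    intro i hi
    have h1 : (c i : ℝ) ≤ ((i : ℝ) + C₁) ^ 2 := by exact_mod_cast hC₁ i
    have h2 : (i : ℝ) ≤ m := by exact_mod_cast (Finset.mem_range.1 hi).le
    have h3 : (2 : ℝ) ≤ c i := by exact_mod_cast hc i
    have h4 : ((i : ℝ) + C₁) ^ 2 ≤ ((m : ℝ) + C₁) ^ 2 := by gcongr
    have h5 : (c i : ℝ) ≤ ((m : ℝ) + C₁) ^ 2 := h1.trans h4
    calc (c i : ℝ) * ((c i : ℝ) - 1) ≤ (c i : ℝ) * (c i : ℝ) := by nlinarith
      _ ≤ ((m : ℝ) + C₁) ^ 2 * ((m : ℝ) + C₁) ^ 2 := by gcongr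
      _ = _ := by ring
  calc cyl c m ≤ ∏ i ∈ Finset.range m, ((m : ℝ) + C₁) ^ 4 := by
        unfold cyl
        apply Finset.prod_le_prod
        · intro i _
          have := two_le_mul (hc i)
          linarith
        · exact h
    _ = ((m : ℝ) + C₁) ^ (4 * m) := by
        rw [Finset.prod_const, Finset.card_range, ← pow_mul]

lemma budget {c : ℕ → ℕ} (hc : ∀ n, 2 ≤ c n) {C₁ : ℕ} (hC₁1 : 1 ≤ C₁)
    (hC₁ : ∀ n, c n ≤ (n + C₁) ^ 2) {k : ℕ → ℕ} {C₂ : ℕ} (hk : ∀ j, k j ≤ (j + C₂) ^ 3) :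
    ∃ K : ℕ, ∀ j, (NN j : ℝ) * 4 ^ j * cyl c (k j) ≤ 2 ^ (K * (j + 1) ^ 5) := by
  refine ⟨8 + 12 * (C₁ + C₂ + 1) ^ 4, fun j => ?_⟩
  have h1 : cyl c (k j) ≤ 2 ^ (12 * (j + (C₁ + C₂)) ^ 4) := by
    have e1 : k j + C₁ ≤ (j + (C₁ + C₂)) ^ 3 := by
      have f1 : (j + C₂) ^ 3 + C₁ ≤ (j + (C₁ + C₂)) ^ 3 := by
        have f2 : (j + (C₁ + C₂)) ^ 3 = (j + C₂) ^ 3 + C₁ ^ 3 + 3 * (j + C₂) ^ 2 * C₁ +
          3 * (j + C₂) * C₁ ^ 2 := by ring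
        have f3 : C₁ ≤ C₁ ^ 3 := Nat.le_self_pow (by norm_num) C₁
        have f4 : 0 ≤ 3 * (j + C₂) ^ 2 * C₁ + 3 * (j + C₂) * C₁ ^ 2 := Nat.zero_le _
        omega
      have := hk j
      omega
    have e2 : (j + (C₁ + C₂)) ^ 3 ≤ 2 ^ (3 * (j + (C₁ + C₂))) := by
      rw [mul_comm, pow_mul]
      exact Nat.pow_le_pow_left Nat.lt_two_pow_self.le 3
    have e3 : k j ≤ (j + (C₁ + C₂)) ^ 3 := by omega
    have e4 : (k j + C₁) ^ (4 * k j) ≤ 2 ^ (12 * (j + (C₁ + C₂)) ^ 4) := by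
      calc (k j + C₁) ^ (4 * k j) ≤ (2 ^ (3 * (j + (C₁ + C₂)))) ^ (4 * k j) :=
            Nat.pow_le_pow_left (e1.trans e2) _
        _ = 2 ^ (3 * (j + (C₁ + C₂)) * (4 * k j)) := by rw [← pow_mul]
        _ ≤ 2 ^ (12 * (j + (C₁ + C₂)) ^ 4) := by
            apply Nat.pow_le_pow_right (by norm_num)
            calc 3 * (j + (C₁ + C₂)) * (4 * k j) = 12 * (j + (C₁ + C₂)) * k j := by ring
              _ ≤ 12 * (j + (C₁ + C₂)) * (j + (C₁ + C₂)) ^ 3 := Nat.mul_le_mul_left _ e3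
              _ = 12 * (j + (C₁ + C₂)) ^ 4 := by ring
    refine (cyl_le hc hC₁ (k j)).trans ?_
    exact_mod_cast e4
  have h2 : ((NN j : ℕ) : ℝ) * 4 ^ j = 2 ^ (((j + 1) ^ 6 - j ^ 6) + 2 * j) := by
    rw [NN, pow_add, pow_mul]
    push_cast
    norm_num
  rw [h2]
  calc (2 : ℝ) ^ (((j + 1) ^ 6 - j ^ 6) + 2 * j) * cyl c (k j)
      ≤ (2 : ℝ) ^ (((j + 1) ^ 6 - j ^ 6) + 2 * j) * 2 ^ (12 * (j + (C₁ + C₂)) ^ 4) := by gcongr
    _ = 2 ^ ((((j + 1) ^ 6 - j ^ 6) + 2 * j) + 12 * (j + (C₁ + C₂)) ^ 4) := by rw [← pow_add]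
    _ ≤ 2 ^ ((8 + 12 * (C₁ + C₂ + 1) ^ 4) * (j + 1) ^ 5) := by
        apply pow_le_pow_right₀ (by norm_num)
        have g1 := six_diff_le j
        have g2 : 2 * j ≤ 2 * (j + 1) ^ 5 := by
          have : j + 1 ≤ (j + 1) ^ 5 := Nat.le_self_pow (by norm_num) _
          omega
        have g3 : (j + (C₁ + C₂)) ^ 4 ≤ (C₁ + C₂ + 1) ^ 4 * (j + 1) ^ 5 := by
          calc (j + (C₁ + C₂)) ^ 4 ≤ ((C₁ + C₂ + 1) * (j + 1)) ^ 4 := by
                apply Nat.pow_le_pow_left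
                nlinarith [Nat.zero_le ((C₁ + C₂) * j)]
            _ = (C₁ + C₂ + 1) ^ 4 * (j + 1) ^ 4 := by rw [mul_pow]
            _ ≤ (C₁ + C₂ + 1) ^ 4 * (j + 1) ^ 5 := by
                apply Nat.mul_le_mul_left
                exact Nat.pow_le_pow_right (by omega) (by norm_num)
        calc (j + 1) ^ 6 - j ^ 6 + 2 * j + 12 * (j + (C₁ + C₂)) ^ 4
            ≤ 6 * (j + 1) ^ 5 + 2 * (j + 1) ^ 5 + 12 * ((C₁ + C₂ + 1) ^ 4 * (j + 1) ^ 5) := by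
              omega
          _ = (8 + 12 * (C₁ + C₂ + 1) ^ 4) * (j + 1) ^ 5 := by ring

lemma poly_bound {a ε : ℝ} (ha : 0 ≤ a) (hε : 0 < ε) :
    ∃ D : ℝ, ∀ j : ℕ, a * ((j : ℝ) + 1) ^ 5 ≤ ε * (j : ℝ) ^ 6 + D := by
  refine ⟨a + 32 * a * (32 * a / ε) ^ 5, fun j => ?_⟩
  have hD : 0 ≤ 32 * a * (32 * a / ε) ^ 5 := by positivity
  rcases Nat.eq_zero_or_pos j with rfl | hj
  · simp
    positivity
  · have hj1 : (1 : ℝ) ≤ j := by exact_mod_cast hj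
    have h1 : ((j : ℝ) + 1) ^ 5 ≤ 32 * (j : ℝ) ^ 5 := by
      calc ((j : ℝ) + 1) ^ 5 ≤ (2 * (j : ℝ)) ^ 5 := by gcongr; linarith
        _ = 32 * (j : ℝ) ^ 5 := by ring
    have h2 : a * ((j : ℝ) + 1) ^ 5 ≤ 32 * a * (j : ℝ) ^ 5 := by nlinarith
    rcases le_total ((j : ℝ)) (32 * a / ε) with h | h
    · have h3 : 32 * a * (j : ℝ) ^ 5 ≤ 32 * a * (32 * a / ε) ^ 5 := by gcongr
      have h4 : 0 ≤ ε * (j : ℝ) ^ 6 := by positivity
      linarith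
    · rw [div_le_iff₀ hε] at h
      have h3 : 32 * a * (j : ℝ) ^ 5 ≤ (j * ε) * (j : ℝ) ^ 5 := by gcongr
      have h4 : (j * ε) * (j : ℝ) ^ 5 = ε * (j : ℝ) ^ 6 := by ring
      linarith

lemma budget' {c : ℕ → ℕ} {k : ℕ → ℕ} (hc : ∀ n, 2 ≤ c n) {K : ℕ}
    (hK : ∀ j, (NN j : ℝ) * 4 ^ j * cyl c (k j) ≤ 2 ^ (K * (j + 1) ^ 5)) {s : ℝ}
    (hs0 : 0 < s) (hs : s < 1 / 2) :
    ∃ C₀ : ℝ, 0 < C₀ ∧ ∀ j, ((NN j : ℝ) * 4 ^ j * cyl c (k j)) ^ s ≤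
      C₀ * (prd NN j : ℝ) ^ (1 - 2 * s) := by
  obtain ⟨D, hD⟩ := poly_bound (a := s * K) (ε := 1 - 2 * s) (by positivity) (by linarith)
  refine ⟨2 ^ D, by positivity, fun j => ?_⟩
  have h0 : (0 : ℝ) ≤ (NN j : ℝ) * 4 ^ j * cyl c (k j) := by
    have := cyl_pos hc (k j)
    positivity
  calc ((NN j : ℝ) * 4 ^ j * cyl c (k j)) ^ s ≤ ((2 : ℝ) ^ (K * (j + 1) ^ 5)) ^ s :=
        Real.rpow_le_rpow h0 (hK j) hs0.le
    _ = (2 : ℝ) ^ (s * K * ((j : ℝ) + 1) ^ 5) := by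
        rw [← Real.rpow_natCast, ← Real.rpow_mul (by norm_num)]
        congr 1
        push_cast
        ring
    _ ≤ (2 : ℝ) ^ ((1 - 2 * s) * (j : ℝ) ^ 6 + D) :=
        Real.rpow_le_rpow_of_exponent_le (by norm_num) (hD j)
    _ = 2 ^ D * (prd NN j : ℝ) ^ (1 - 2 * s) := by
        rw [add_comm, Real.rpow_add (by norm_num), prd_NN]
        congr 1
        push_cast
        rw [← Real.rpow_natCast 2 (j ^ 6), ← Real.rpow_mul (by norm_num)]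
        congr 1
        push_cast
        ring

/-! ### lower bound for the asymptotic set -/

variable {T : ℝ → ℝ}

lemma le_dimH_AS (hT : IsLuroth T) {x : ℝ} (hx : x ∈ Good T)
    (h1 : ¬ ∃ᶠ n in atTop, (n + 2) ^ 2 ≤ dig (T^[n] x))
    (h2 : ¬ ∃ᶠ j in atTop, ∀ i, i < j ^ 2 → dig (T^[j ^ 3 + i] x) < j + 2) :
    ((1 / 2 : ℝ≥0) : ℝ≥0∞) ≤
      dimH {y | y ∈ Icc (0 : ℝ) 1 ∧ Tendsto (fun n => |T^[n] x - T^[n] y|) atTop (𝓝 0)} := by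
  rw [not_frequently] at h1 h2
  set c : ℕ → ℕ := fun n => dig (T^[n] x) with hc
  have hc2 : ∀ n, 2 ≤ c n := fun n => two_le_dig (hx n)
  -- bound on the digits
  obtain ⟨n₀, hn₀⟩ := eventually_atTop.1 h1
  obtain ⟨C₁, hC₁1, hC₁⟩ : ∃ C₁ : ℕ, 1 ≤ C₁ ∧ ∀ n, c n ≤ (n + C₁) ^ 2 := by
    refine ⟨2 + ∑ i ∈ Finset.range n₀, c i, by omega, fun n => ?_⟩
    rcases le_or_gt n₀ n with h | h
    · have h3 := hn₀ n h
      push Not at h3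
      refine h3.le.trans (Nat.pow_le_pow_left ?_ 2)
      omega
    · have h3 : c n ≤ ∑ i ∈ Finset.range n₀, c i :=
        Finset.single_le_sum (fun i _ => Nat.zero_le _) (Finset.mem_range.2 h)
      calc c n ≤ n + (2 + ∑ i ∈ Finset.range n₀, c i) := by omega
        _ ≤ _ := Nat.le_self_pow (by norm_num) _
  -- the free positions
  obtain ⟨j₁, hj₁⟩ := eventually_atTop.1 h2
  set j₀ := j₁ + 1 with hj₀
  have hex : ∀ j, ∃ i, i < (j + j₀) ^ 2 ∧ (j + j₀) + 2 ≤ dig (T^[(j + j₀) ^ 3 + i] x) := by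
    intro j
    have := hj₁ (j + j₀) (by omega)
    push Not at this
    exact this
  choose e he1 he2 using hex
  set k : ℕ → ℕ := fun j => (j + j₀) ^ 3 + e j with hk
  have hk2 : ∀ j, k j + 2 ≤ k (j + 1) := by
    intro j
    have f1 := he1 j
    have f2 : (j + 1 + j₀) ^ 3 = (j + j₀) ^ 3 + (j + j₀) ^ 2 + (2 * (j + j₀) ^ 2 + 3 * (j + j₀) + 1)
      := by ring
    simp only [hk]
    rw [f2]
    omega
  have hkm : StrictMono k := strictMono_nat_of_lt_succ fun j => by have := hk2 j; omega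
  have hk3 : ∀ j, k j ≤ (j + (j₀ + 1)) ^ 3 := by
    intro j
    have f1 := he1 j
    have f2 : (j + (j₀ + 1)) ^ 3 = (j + j₀) ^ 3 + (j + j₀) ^ 2 +
      (2 * (j + j₀) ^ 2 + 3 * (j + j₀) + 1) := by ring
    simp only [hk]
    rw [f2]
    omega
  have hbig : Tendsto (fun j => dig (T^[k j] x)) atTop atTop := by
    refine tendsto_atTop_mono (fun j => ?_) tendsto_id
    have := he2 j
    simp only [id, hk]
    omega
  obtain ⟨K, hK⟩ := budget hc2 hC₁1 hC₁ hk3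
  apply le_of_forall_lt
  intro s' hs'
  obtain ⟨s, hs1, hs2⟩ := ENNReal.lt_iff_exists_nnreal_btwn.1 hs'
  refine hs1.trans_le ?_
  rcases eq_or_ne s 0 with rfl | hs0
  · simp
  have hs0' : (0 : ℝ) < s := lt_of_le_of_ne s.2 (fun h => hs0 (by ext; exact h.symm))
  have hs : (s : ℝ) < 1 / 2 := by
    have h1 : s < (1 / 2 : ℝ≥0) := by exact_mod_cast hs2
    have h2 : (s : ℝ) < (((1 / 2 : ℝ≥0)) : ℝ) := by exact_mod_cast h1
    simpa using h2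
  obtain ⟨C₀, hC₀, hH⟩ := budget' hc2 hK hs0' hs
  have h3 := le_dimH_image (f := fun t => phi (dsq c k NN t)) hs0' (C := 16 * C₀) (by positivity)
    (fun t ht t' ht' hne => holder hkm hk2 hc2 two_le_NN hs0' (by linarith) hC₀ hH ht ht' hne)
  rw [ENNReal.ofReal_coe_nnreal] at h3
  refine h3.trans (dimH_mono ?_)
  rintro _ ⟨t, _, rfl⟩
  have hd2 : ∀ n, 2 ≤ dsq c k NN t n := dsq_ge hkm hc2 two_le_NN t
  exact ⟨⟨phi_nonneg hd2, phi_le_one hd2⟩, mem_AS hT hx hkm two_le_NN tendsto_NN hbig t⟩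

lemma volume_compl_good (hT : IsLuroth T) : volume (Icc (0 : ℝ) 1 \ Good T) = 0 := by
  have h1 : Icc (0 : ℝ) 1 \ Good T ⊆
      ⋃ n : ℕ, {y | y ∈ Icc (0 : ℝ) 1 ∧ T^[n] y ∈ ({0, 1} : Set ℝ)} := by
    rintro y ⟨hy, hyG⟩
    have h2 : ∃ n, T^[n] y ∉ Ioo (0 : ℝ) 1 := by
      by_contra hcon
      push Not at hcon
      exact hyG hcon
    obtain ⟨n, hn⟩ := h2
    refine mem_iUnion.2 ⟨n, hy, ?_⟩
    have h3 := hT.iterate_mem hy n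
    simp only [mem_insert_iff, mem_singleton_iff]
    by_contra hcon
    push Not at hcon
    exact hn ⟨lt_of_le_of_ne h3.1 (Ne.symm hcon.1), lt_of_le_of_ne h3.2 hcon.2⟩
  have h2 : dimH (Icc (0 : ℝ) 1 \ Good T) ≤ 0 := by
    refine (dimH_mono h1).trans ?_
    rw [dimH_iUnion]
    apply iSup_le
    intro n
    refine (hT.dimH_preimage _ n).trans ?_
    rw [dimH_countable (Set.Finite.countable (by simp))]
  rw [← hausdorffMeasure_real]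
  have h3 := hausdorffMeasure_of_dimH_lt (d := 1) (h2.trans_lt (by simp))
  simpa using h3

/-- For almost every `x` the asymptotic set has dimension exactly `1 / 2`. -/
lemma volume_main (hT : IsLuroth T) :
    volume (Icc (0 : ℝ) 1 \ {x | x ∈ Icc (0 : ℝ) 1 ∧
      dimH {y | y ∈ Icc (0 : ℝ) 1 ∧ Tendsto (fun n => |T^[n] x - T^[n] y|) atTop (𝓝 0)} =
        1 / 2}) = 0 := by
  refine measure_mono_null ?_ (measure_union_null (volume_compl_good hT)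
    (measure_union_null (ae_growth hT) (ae_big hT)))
  rintro x ⟨hx, hxn⟩
  by_cases hG : x ∈ Good T
  · right
    by_cases h1 : ∃ᶠ n in atTop, (n + 2) ^ 2 ≤ dig (T^[n] x)
    · left
      exact ⟨hG, h1⟩
    by_cases h2 : ∃ᶠ j in atTop, ∀ i, i < j ^ 2 → dig (T^[j ^ 3 + i] x) < j + 2
    · right
      exact ⟨hG, h2⟩
    exfalso
    apply hxn
    refine ⟨hx, ?_⟩
    have e : (1 / 2 : ℝ≥0∞) = ((1 / 2 : ℝ≥0) : ℝ≥0∞) := by
      rw [ENNReal.coe_div (by norm_num)]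
      rfl
    rw [e]
    exact le_antisymm (dimH_AS_le hT hG) (le_dimH_AS hT hG h1 h2)
  · left
    exact ⟨hx, hG⟩

end Pool.Agent.Lib.MP98e33a
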